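import Mathlib

set_option autoImplicit false

/-! Definitions for: irrational rotations are distorted among real-analytic circle
diffeomorphisms (MP_707bda_al). All maps are lifts to the real line. -/

namespace Pool.Agent.RotDist

/-- translation by `c` -/
def tr (c : ℝ) : Equiv.Perm ℝ := Equiv.addRight c

/-- `e(x) = exp(2 π i x)` -/
noncomputable def ee (x : ℝ) : ℂ := Complex.exp ((2 * Real.pi * x : ℝ) * Complex.I)

/-- lift of the Moebius map `z ↦ (z+p)/(1+conj p z)` of the unit circle, for `‖p‖ < 1` -/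
noncomputable def bst (p : ℂ) (x : ℝ) : ℝ :=
  x + (1 / Real.pi) * Complex.arg (1 + p * ee (-x))

open Classical in
/-- `bst p` as a permutation -/
noncomputable def bp (p : ℂ) : Equiv.Perm ℝ :=
  if h : ∃ g : Equiv.Perm ℝ, ∀ x, g x = bst p x then h.choose else 1

open Classical in
/-- conjugation by the multiplication with `q` -/
noncomputable def lv (q : ℝ) (g : Equiv.Perm ℝ) : Equiv.Perm ℝ :=
  if h : q ≠ 0 then (Equiv.mulLeft₀ q h)⁻¹ * g * Equiv.mulLeft₀ q h else g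

/-- `g` extends holomorphically to the strip `|Im z| < 1` and is `ε`-close to the identity there -/
def Ext (g : Equiv.Perm ℝ) (ε : ℝ) : Prop :=
  ∃ G : ℂ → ℂ, DifferentiableOn ℂ G {z | |z.im| < 1} ∧ (∀ x : ℝ, G (x : ℂ) = ((g x : ℝ) : ℂ)) ∧
    ∀ z : ℂ, |z.im| < 1 → ‖G z - z‖ ≤ ε

/-- words of length at most `L` in `S`, modulo integer translations -/
def Ball (S : Set (Equiv.Perm ℝ)) (L : ℕ) (g : Equiv.Perm ℝ) : Prop :=
  ∃ l : List (Equiv.Perm ℝ), l.length ≤ L ∧ (∀ x ∈ l, x ∈ S ∨ x⁻¹ ∈ S) ∧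
    ∃ k : ℤ, l.prod = g * tr (k : ℝ)

/-- the gadget relations at level `q` with rotation parameter `s` producing the rotation `θ` -/
def Gad (q s θ : ℝ) (y : Fin 4 → Equiv.Perm ℝ) (c : Fin 4 → ℝ) : Prop :=
  (∃ n : ℤ, tr s * (y 0 * tr s * (y 0)⁻¹) = y 0 * tr (c 0) * tr (n / q)) ∧
  (∃ n : ℤ, tr s * (y 2 * tr s * (y 2)⁻¹) = y 2 * tr (c 2) * tr (n / q)) ∧
  (∃ n : ℤ, (y 0 * tr (c 0)) * tr s * (y 0 * tr (c 0))⁻¹ * (y 1 * tr s * (y 1)⁻¹) *
    (y 0 * tr (c 0)) = y 1 * tr (c 1) * tr (n / q)) ∧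
  (∃ n : ℤ, (y 2 * tr (c 2)) * tr s * (y 2 * tr (c 2))⁻¹ * (y 3 * tr s * (y 3)⁻¹) *
    (y 2 * tr (c 2)) = y 3 * tr (c 3) * tr (n / q)) ∧
  (∃ n : ℤ, (y 1 * tr s * (y 1)⁻¹) * (y 3 * tr s * (y 3)⁻¹) * tr (-(2 * s)) =
    tr θ * tr (n / q))

/-- invariant of the recursion: for every choice of tails commuting with the rotation by `1/q`,
the rotation by `1/q'` and the heads are words of length at most `L` -/
def Inv (S0 : Set (Equiv.Perm ℝ)) (q q' : ℕ) (Q : Fin 2 → Fin 4 → Equiv.Perm ℝ) (L : ℕ) : Prop :=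
  ∀ f : Fin 2 → Fin 4 → Equiv.Perm ℝ,
    (∀ i j, ∃ T : Equiv.Perm ℝ, T * tr (1 / (q : ℝ)) = tr (1 / (q : ℝ)) * T ∧
      f i j = Q i j * T) →
    Ball (S0 ∪ {g | ∃ i j, g = f i j}) L (tr (1 / (q' : ℝ))) ∧
    ∀ i j, Ball (S0 ∪ {g | ∃ i j, g = f i j}) L (Q i j)

end Pool.Agent.RotDist
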