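import Mathlib
import Pool.Agent.RotDist.Defs

set_option autoImplicit false

namespace Pool.Agent.RotDist

theorem tr_apply (c x : ℝ) : tr c x = x + c := by
  rfl

theorem tr_add (a b : ℝ) : tr a * tr b = tr (a + b) := by
  ext x
  rw [Equiv.Perm.mul_apply, tr_apply, tr_apply, tr_apply]
  ring

theorem tr_inv (a : ℝ) : (tr a)⁻¹ = tr (-a) := by
  apply inv_eq_of_mul_eq_one_right
  ext x
  rw [Equiv.Perm.mul_apply, tr_apply, tr_apply, Equiv.Perm.one_apply]
  ring

theorem tr_zero : tr 0 = 1 := by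
  ext x
  rw [tr_apply, Equiv.Perm.one_apply, add_zero]

theorem ee_add (x y : ℝ) : ee (x + y) = ee x * ee y := by
  rw [ee, ee, ee, ← Complex.exp_add]
  congr 1
  push_cast
  ring

theorem ee_neg (x : ℝ) : ee (-x) = (ee x)⁻¹ := by
  rw [ee, ee, ← Complex.exp_neg]
  congr 1
  push_cast
  ring

theorem ee_conj (x : ℝ) : (starRingEnd ℂ) (ee x) = ee (-x) := by
  rw [ee, ee, ← Complex.exp_conj]
  congr 1
  rw [map_mul, Complex.conj_I, Complex.conj_ofReal]
  push_cast
  ring

theorem norm_ee (x : ℝ) : ‖ee x‖ = 1 := by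
  rw [ee, Complex.norm_exp_ofReal_mul_I]

theorem ee_eq_iff (x y : ℝ) : ee x = ee y ↔ ∃ n : ℤ, y = x + n := by
  rw [ee, ee, Complex.exp_eq_exp_iff_exists_int]
  have hpi : (2 * (Real.pi : ℂ) * Complex.I) ≠ 0 := Complex.two_pi_I_ne_zero
  constructor
  · rintro ⟨n, hn⟩
    refine ⟨-n, ?_⟩
    have h1 : (2 * (Real.pi : ℂ) * Complex.I) * ((x : ℂ) - (y + n)) = 0 := by
      push_cast at hn
      linear_combination hn
    have h2 := (mul_eq_zero.mp h1).resolve_left hpi
    have h3 : x - (y + n) = 0 := by exact_mod_cast h2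
    push_cast
    linarith
  · rintro ⟨n, rfl⟩
    refine ⟨-n, ?_⟩
    push_cast
    ring

theorem re_pos_of (p : ℂ) (hp : ‖p‖ < 1) (x : ℝ) : 0 < (1 + p * ee (-x)).re := by
  have h1 : ‖p * ee (-x)‖ < 1 := by rw [norm_mul, norm_ee, mul_one]; exact hp
  have h2 := Complex.abs_re_le_norm (p * ee (-x))
  have h3 := (abs_lt.mp (lt_of_le_of_lt h2 h1)).1
  rw [Complex.add_re, Complex.one_re]
  linarith

theorem w_ne (p : ℂ) (hp : ‖p‖ < 1) (x : ℝ) : (1 + p * ee (-x)) ≠ 0 := by
  intro h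
  have := re_pos_of p hp x
  rw [h, Complex.zero_re] at this
  exact lt_irrefl _ this

theorem w_conj (p : ℂ) (x : ℝ) : (starRingEnd ℂ) (1 + p * ee (-x)) =
    1 + (starRingEnd ℂ) p * ee x := by
  rw [map_add, map_one, map_mul, ee_conj, neg_neg]

theorem den_ne (p : ℂ) (hp : ‖p‖ < 1) (x : ℝ) : 1 + (starRingEnd ℂ) p * ee x ≠ 0 := by
  rw [← w_conj]
  intro h
  exact w_ne p hp x ((map_eq_zero _).mp h)

theorem bst_ee (p : ℂ) (hp : ‖p‖ < 1) (x : ℝ) :
    ee (bst p x) = (ee x + p) / (1 + (starRingEnd ℂ) p * ee x) := by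
  have hw := w_ne p hp x
  have hd := den_ne p hp x
  set w : ℂ := 1 + p * ee (-x) with hwdef
  have hpi : (Real.pi : ℂ) ≠ 0 := by exact_mod_cast Real.pi_ne_zero
  have h1 : ee ((1 / Real.pi) * Complex.arg w) = Complex.exp (Complex.arg w * Complex.I) ^ 2 := by
    rw [ee, ← Complex.exp_nat_mul]
    congr 1
    push_cast
    field_simp
  have hnw : (‖w‖ : ℂ) ≠ 0 := by exact_mod_cast norm_ne_zero_iff.mpr hw
  have h2 : (‖w‖ : ℂ) * Complex.exp (Complex.arg w * Complex.I) = w := Complex.norm_mul_exp_arg_mul_I w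
  have h3 : w * (starRingEnd ℂ) w = (‖w‖ : ℂ) ^ 2 := Complex.mul_conj' w
  have h4 : (starRingEnd ℂ) w = 1 + (starRingEnd ℂ) p * ee x := w_conj p x
  rw [h4] at h3
  have h5 : ee x * w = ee x + p := by
    rw [hwdef, mul_add, mul_one, ee_neg]
    have : ee x ≠ 0 := by
      intro h
      have := norm_ee x
      rw [h, norm_zero] at this
      exact zero_ne_one this
    field_simp
  rw [bst, ← hwdef, ee_add, h1, eq_div_iff hd, ← h5, mul_assoc]
  congr 1
  apply mul_left_cancel₀ (pow_ne_zero 2 hnw)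
  calc (‖w‖ : ℂ) ^ 2 * (Complex.exp (Complex.arg w * Complex.I) ^ 2 * (1 + (starRingEnd ℂ) p * ee x))
      = ((‖w‖ : ℂ) * Complex.exp (Complex.arg w * Complex.I)) ^ 2 * (1 + (starRingEnd ℂ) p * ee x) := by
        ring
    _ = w * (w * (1 + (starRingEnd ℂ) p * ee x)) := by rw [h2]; ring
    _ = (‖w‖ : ℂ) ^ 2 * w := by rw [h3]; ring

theorem bst_near (p : ℂ) (hp : ‖p‖ < 1) (x : ℝ) : |bst p x - x| < 1 / 2 := by
  have h1 := Complex.abs_arg_lt_pi_div_two_iff.mpr (Or.inl (re_pos_of p hp x))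
  have h2 : bst p x - x = (1 / Real.pi) * Complex.arg (1 + p * ee (-x)) := by
    rw [bst]; ring
  have hpi := Real.pi_pos
  rw [h2, abs_mul, abs_of_pos (by positivity : (0:ℝ) < 1 / Real.pi), one_div_mul_eq_div,
    div_lt_iff₀ hpi]
  linarith

theorem bst_inv (p : ℂ) (hp : ‖p‖ < 1) (x : ℝ) : bst (-p) (bst p x) = x := by
  have hp' : ‖-p‖ < 1 := by rw [norm_neg]; exact hp
  have hd := den_ne p hp x
  have h1 : ee (bst (-p) (bst p x)) = ee x := by
    have hd2 := den_ne (-p) hp' (bst p x)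
    have key : ∀ (u p c : ℂ), 1 + c * u ≠ 0 →
        (u + p) / (1 + c * u) + -p = u * (1 + -c * ((u + p) / (1 + c * u))) := by
      intro u p c h
      have h' : (1 + c * u) * (1 + c * u)⁻¹ = 1 := mul_inv_cancel₀ h
      rw [div_eq_mul_inv]
      linear_combination (u + p) * h'
    rw [bst_ee (-p) hp', div_eq_iff hd2, bst_ee p hp, map_neg]
    exact key _ _ _ hd
  obtain ⟨n, hn⟩ := (ee_eq_iff _ _).mp h1
  have h2 := abs_lt.mp (bst_near p hp x)
  have h3 := abs_lt.mp (bst_near (-p) hp' (bst p x))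
  have h4 : (n : ℝ) < 1 := by linarith [h2.1, h3.1]
  have h5 : (-1 : ℝ) < n := by linarith [h2.2, h3.2]
  have h6 : n < 1 := by exact_mod_cast h4
  have h7 : -1 < n := by exact_mod_cast h5
  have h8 : n = 0 := by omega
  rw [h8, Int.cast_zero, add_zero] at hn
  exact hn.symm

theorem bst_cont (p : ℂ) (hp : ‖p‖ < 1) : Continuous (bst p) := by
  rw [continuous_iff_continuousAt]
  intro x
  have h1 : Continuous ee := by
    unfold ee
    fun_prop
  have h2 : Continuous (fun x : ℝ => 1 + p * ee (-x)) := by fun_prop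
  have h3 : ContinuousAt (fun x : ℝ => Complex.arg (1 + p * ee (-x))) x :=
    ContinuousAt.comp (f := fun x : ℝ => 1 + p * ee (-x)) (g := Complex.arg)
      (Complex.continuousAt_arg (Complex.mem_slitPlane_iff.mpr (Or.inl (re_pos_of p hp x))))
      h2.continuousAt
  exact continuousAt_id.add (continuousAt_const.mul h3)

theorem bst_mono (p : ℂ) (hp : ‖p‖ < 1) : StrictMono (bst p) := by
  have hinj : Function.Injective (bst p) := by
    intro a b hab
    rw [← bst_inv p hp a, hab, bst_inv p hp b]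
  rcases (bst_cont p hp).strictMono_of_inj hinj with h | h
  · exact h
  · exfalso
    have h1 := h (zero_lt_one : (0:ℝ) < 1)
    have h2 := (abs_lt.mp (bst_near p hp 0)).2
    have h3 := (abs_lt.mp (bst_near p hp 1)).1
    linarith

theorem bst_int (p : ℂ) (x : ℝ) (n : ℤ) : bst p (x + n) = bst p x + n := by
  have h1 : ee (-(x + n)) = ee (-x) := by
    rw [ee_eq_iff]
    exact ⟨n, by ring⟩
  rw [bst, bst, h1]
  ring

theorem bst_rot (p : ℂ) (u x : ℝ) : bst p (x - u) + u = bst (p * ee u) x := by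
  have h1 : p * ee (-(x - u)) = p * ee u * ee (-x) := by
    rw [mul_assoc, ← ee_add]
    congr 2
    ring
  rw [bst, bst, h1]
  ring

end Pool.Agent.RotDist
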