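import Mathlib
import Pool.Agent.RotDist.Defs

set_option autoImplicit false

namespace Pool.Agent.RotDist

/-- the gadget exists at level `q` with parameter `N` and precision `ε` -/
def GoodN (q : ℕ) (ε : ℝ) (N : ℕ) : Prop :=
  ∃ η0 : ℝ, 0 < η0 ∧ ∀ θ : ℝ, 0 < θ → θ < η0 →
    ∃ (y : Fin 4 → Equiv.Perm ℝ) (c : Fin 4 → ℝ),
      (∀ i, Ext (y i) ε ∧ StrictMono (y i) ∧ |c i| ≤ 1 / (q : ℝ) ∧
        y i * tr (1 / (q : ℝ)) = tr (1 / (q : ℝ)) * y i) ∧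
      Gad (q : ℝ) (((N : ℝ) - 1) / (6 * N * q)) θ y c

/-- state of the recursion -/
structure St where
  q : ℕ
  N : ℕ
  L : ℕ
  Q : Fin 2 → Fin 4 → Equiv.Perm ℝ

/-- new length bound -/
def L1 (N q L : ℕ) : ℕ := 20 * (6 * N * q + 1) * (L + 1)

/-- valid states at stage `m` -/
def Valid (S0 : Set (Equiv.Perm ℝ)) (m : ℕ) (st : St) : Prop :=
  16 * 2 ^ m ≤ st.q ∧ 2 ≤ st.N ∧ GoodN st.q (1 / 32 * (1 / 2) ^ m) st.N ∧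
    Inv S0 st.q (6 * st.N * st.q) st.Q st.L ∧
    ∀ i j, st.Q i j * tr 1 = tr 1 * st.Q i j

/-- one step of the recursion -/
def Step (S0 : Set (Equiv.Perm ℝ)) (α : ℝ) (m : ℕ) (st st' : St) : Prop :=
  st'.q = 6 * st.N * st.q ∧
  (∃ F : Fin 2 → Fin 4 → Equiv.Perm ℝ, (∀ i j, st'.Q i j = st.Q i j * F i j) ∧
    ∀ i j, Ext (F i j) (1 / 8 * (1 / 2) ^ m) ∧ StrictMono (F i j) ∧
      F i j * tr (1 / (st.q : ℝ)) = tr (1 / (st.q : ℝ)) * F i j) ∧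
  ∃ (n : ℕ) (k : ℤ), 0 < n ∧ (m + 1) * L1 st.N st.q st.L ≤ n ∧
    ∀ f : Fin 2 → Fin 4 → Equiv.Perm ℝ,
      (∀ i j, ∃ T : Equiv.Perm ℝ, T * tr (1 / (st'.q : ℝ)) = tr (1 / (st'.q : ℝ)) * T ∧
        f i j = st'.Q i j * T) →
      Ball (S0 ∪ {g | ∃ i j, g = f i j}) (L1 st.N st.q st.L) (tr ((n : ℝ) * α - k))

end Pool.Agent.RotDist
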