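import Mathlib
import Pool.Agent.RotDist.Defs2
import Pool.Agent.RotDist.Bst

set_option autoImplicit false

namespace Pool.Agent.RotDist

/-- `tr` as a homomorphism -/
def trh : Multiplicative ℝ →* Equiv.Perm ℝ where
  toFun a := tr (Multiplicative.toAdd a)
  map_one' := by
    show tr 0 = 1
    exact tr_zero
  map_mul' a b := by
    show tr (Multiplicative.toAdd a + Multiplicative.toAdd b) = _
    rw [tr_add]

theorem tr_zpow (a : ℝ) (u : ℤ) : tr a ^ u = tr (u * a) := by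
  have h := map_zpow trh (Multiplicative.ofAdd a) u
  have h1 : trh (Multiplicative.ofAdd a ^ u) = tr (u * a) := by
    rw [← ofAdd_zsmul, zsmul_eq_mul]
    rfl
  rw [← h1, h]
  rfl

theorem tr_npow (a : ℝ) (u : ℕ) : tr a ^ u = tr (u * a) := by
  have h := tr_zpow a (u : ℤ)
  rw [zpow_natCast] at h
  rw [h]
  push_cast
  rfl

theorem commute_tr (a b : ℝ) : Commute (tr a) (tr b) := by
  show tr a * tr b = tr b * tr a
  rw [tr_add, tr_add, add_comm]

theorem commute_int {g : Equiv.Perm ℝ} (h : Commute g (tr 1)) (k : ℤ) : Commute g (tr k) := by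
  have h1 := h.zpow_right k
  rwa [tr_zpow, mul_one] at h1

theorem commute_list (S : Set (Equiv.Perm ℝ)) (hS : ∀ g ∈ S, g * tr 1 = tr 1 * g)
    (l : List (Equiv.Perm ℝ)) (hl : ∀ x ∈ l, x ∈ S ∨ x⁻¹ ∈ S) : Commute l.prod (tr 1) := by
  induction l with
  | nil => exact Commute.one_left _
  | cons a l ih =>
    rw [List.prod_cons]
    refine Commute.mul_left ?_ (ih fun x hx => hl x (List.mem_cons_of_mem _ hx))
    rcases hl a List.mem_cons_self with h | h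
    · exact hS a h
    · have h1 : Commute a⁻¹ (tr 1) := hS _ h
      have h2 := h1.inv_left
      rwa [inv_inv] at h2

theorem commute_ball (S : Set (Equiv.Perm ℝ)) (hS : ∀ g ∈ S, g * tr 1 = tr 1 * g) (L : ℕ)
    (g : Equiv.Perm ℝ) (hg : Ball S L g) (k : ℤ) : Commute g (tr k) := by
  obtain ⟨l, _, hl, m, hm⟩ := hg
  have h1 := commute_int (commute_list S hS l hl) k
  rw [hm] at h1
  have h2 : g = (g * tr (m : ℝ)) * (tr (m : ℝ))⁻¹ := by group
  rw [h2]
  exact h1.mul_left (commute_tr _ _).inv_left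

theorem ball_mono (S : Set (Equiv.Perm ℝ)) (L L' : ℕ) (h : L ≤ L') (g : Equiv.Perm ℝ)
    (hg : Ball S L g) : Ball S L' g := by
  obtain ⟨l, h1, h2⟩ := hg
  exact ⟨l, h1.trans h, h2⟩

theorem ball_mem (S : Set (Equiv.Perm ℝ)) (g : Equiv.Perm ℝ) (hg : g ∈ S) : Ball S 1 g := by
  refine ⟨[g], by simp, ?_, 0, ?_⟩
  · intro x hx
    rw [List.mem_singleton] at hx
    subst hx
    exact Or.inl hg
  · rw [List.prod_singleton, Int.cast_zero, tr_zero, mul_one]

theorem ball_int (S : Set (Equiv.Perm ℝ)) (k : ℤ) : Ball S 0 (tr k) := by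
  refine ⟨[], by simp, by simp, -k, ?_⟩
  rw [List.prod_nil, Int.cast_neg, tr_add, add_neg_cancel, tr_zero]

theorem ball_mul (S : Set (Equiv.Perm ℝ)) (hS : ∀ g ∈ S, g * tr 1 = tr 1 * g) (L L' : ℕ)
    (g g' : Equiv.Perm ℝ) (hg : Ball S L g) (hg' : Ball S L' g') : Ball S (L + L') (g * g') := by
  have hc : ∀ k : ℤ, Commute g' (tr k) := commute_ball S hS L' g' hg'
  obtain ⟨l, h1, h2, k, h3⟩ := hg
  obtain ⟨l', h1', h2', k', h3'⟩ := hg'
  refine ⟨l ++ l', ?_, ?_, k + k', ?_⟩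
  · rw [List.length_append]
    omega
  · intro x hx
    rcases List.mem_append.1 hx with h | h
    · exact h2 x h
    · exact h2' x h
  · rw [List.prod_append, h3, h3', Int.cast_add, ← tr_add]
    have h4 : tr (k : ℝ) * g' = g' * tr (k : ℝ) := (hc k).symm
    calc g * tr (k : ℝ) * (g' * tr (k' : ℝ)) = g * (tr (k : ℝ) * g') * tr (k' : ℝ) := by group
      _ = g * (g' * tr (k : ℝ)) * tr (k' : ℝ) := by rw [h4]
      _ = _ := by group

theorem ball_inv (S : Set (Equiv.Perm ℝ)) (hS : ∀ g ∈ S, g * tr 1 = tr 1 * g) (L : ℕ)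
    (g : Equiv.Perm ℝ) (hg : Ball S L g) : Ball S L g⁻¹ := by
  have hc : ∀ k : ℤ, Commute g (tr k) := commute_ball S hS L g hg
  obtain ⟨l, h1, h2, k, h3⟩ := hg
  refine ⟨(l.map fun x => x⁻¹).reverse, ?_, ?_, -k, ?_⟩
  · rw [List.length_reverse, List.length_map]
    exact h1
  · intro x hx
    rw [List.mem_reverse, List.mem_map] at hx
    obtain ⟨a, ha, rfl⟩ := hx
    rw [inv_inv]
    exact (h2 a ha).symm
  · rw [← List.prod_inv_reverse, h3, Int.cast_neg, ← tr_inv, mul_inv_rev]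
    exact ((hc k).inv_inv.symm : _)

theorem ball_pow (S : Set (Equiv.Perm ℝ)) (hS : ∀ g ∈ S, g * tr 1 = tr 1 * g) (L : ℕ)
    (g : Equiv.Perm ℝ) (hg : Ball S L g) (r : ℕ) : Ball S (r * L) (g ^ r) := by
  induction r with
  | zero =>
    rw [zero_mul, pow_zero, ← tr_zero]
    have := ball_int S 0
    rwa [Int.cast_zero] at this
  | succ r ih =>
    rw [pow_succ, add_mul, one_mul]
    exact ball_mul S hS _ _ _ _ ih hg

/-- all multiples of `1/q'` modulo integers -/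
theorem ball_rat (S : Set (Equiv.Perm ℝ)) (hS : ∀ g ∈ S, g * tr 1 = tr 1 * g) (L q' : ℕ)
    (hq : 1 ≤ q') (h : Ball S L (tr (1 / (q' : ℝ)))) (u : ℤ) :
    Ball S (q' * L) (tr ((u : ℝ) / (q' : ℝ))) := by
  have hq0 : (q' : ℤ) ≠ 0 := by
    have : (1 : ℤ) ≤ q' := by exact_mod_cast hq
    omega
  have hqr : (q' : ℝ) ≠ 0 := by exact_mod_cast hq0
  have hr0 : 0 ≤ u % (q' : ℤ) := Int.emod_nonneg _ hq0
  have hr1 : u % (q' : ℤ) < q' := Int.emod_lt_of_pos _ (by omega)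
  obtain ⟨r, hr⟩ := Int.eq_ofNat_of_zero_le hr0
  have hrq : r ≤ q' := by
    rw [hr] at hr1
    have : (r : ℤ) < q' := hr1
    omega
  have hu : u = q' * (u / q') + r := by
    rw [← hr]
    exact (Int.mul_ediv_add_emod u q').symm
  have h1 : tr ((u : ℝ) / (q' : ℝ)) = tr (1 / (q' : ℝ)) ^ r * tr (((u / (q' : ℤ) : ℤ)) : ℝ) := by
    rw [tr_npow, tr_add]
    congr 1
    have h2 : (u : ℝ) = q' * ((u / (q' : ℤ) : ℤ) : ℝ) + r := by exact_mod_cast hu
    conv_lhs => rw [h2]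
    field_simp
    ring
  rw [h1]
  have h3 := ball_mul S hS _ _ _ _ (ball_pow S hS L _ h r) (ball_int S (u / (q' : ℤ)))
  exact ball_mono S _ _ (by rw [add_zero]; exact Nat.mul_le_mul_right L hrq) _ h3

/-- commutation with a root of a translation implies commutation with the translation -/
theorem comm_root (T : Equiv.Perm ℝ) (q r : ℕ) (hq : 1 ≤ q) (hr : 1 ≤ r)
    (h : T * tr (1 / ((r * q : ℕ) : ℝ)) = tr (1 / ((r * q : ℕ) : ℝ)) * T) (u : ℤ) :
    T * tr ((u : ℝ) / (q : ℝ)) = tr ((u : ℝ) / (q : ℝ)) * T := by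
  have h1 : Commute T (tr (1 / ((r * q : ℕ) : ℝ))) := h
  have h2 := h1.zpow_right (u * r)
  rw [tr_zpow] at h2
  have hq0 : (q : ℝ) ≠ 0 := by
    have : (1 : ℝ) ≤ q := by exact_mod_cast hq
    positivity
  have hr0 : (r : ℝ) ≠ 0 := by
    have : (1 : ℝ) ≤ r := by exact_mod_cast hr
    positivity
  have h3 : ((u * r : ℤ) : ℝ) * (1 / ((r * q : ℕ) : ℝ)) = (u : ℝ) / (q : ℝ) := by
    push_cast
    field_simp
  rw [h3] at h2
  exact h2

theorem gad_core (S : Set (Equiv.Perm ℝ)) (hS : ∀ g ∈ S, g * tr 1 = tr 1 * g) (q s θ : ℝ)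
    (y : Fin 4 → Equiv.Perm ℝ) (c : Fin 4 → ℝ) (g : Gad q s θ y c) (A B : ℕ)
    (hs : Ball S A (tr s)) (hn : ∀ n : ℤ, Ball S A (tr (n / q))) (h2s : Ball S A (tr (-(2 * s))))
    (hX : ∀ j, Ball S B (y j * tr s * (y j)⁻¹)) :
    (∀ j, Ball S (8 * A + 4 * B) (y j * tr (c j))) ∧ Ball S (2 * A + 2 * B) (tr θ) := by
  obtain ⟨⟨n0, g0⟩, ⟨n2, g2⟩, ⟨n1, g1⟩, ⟨n3, g3⟩, ⟨n4, g4⟩⟩ := g
  have first : ∀ (Y X : Equiv.Perm ℝ) (n : ℤ), Ball S B X → tr s * X = Y * tr (n / q) →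
      Ball S (A + B + A) Y := by
    intro Y X n hX h
    have h1 : Y = tr s * X * (tr (n / q))⁻¹ := eq_mul_inv_of_mul_eq h.symm
    rw [h1]
    exact ball_mul S hS _ _ _ _ (ball_mul S hS _ _ _ _ hs hX) (ball_inv S hS _ _ (hn n))
  have second : ∀ (Y0 Y X : Equiv.Perm ℝ) (n : ℤ), Ball S B X → Ball S (A + B + A) Y0 →
      Y0 * tr s * Y0⁻¹ * X * Y0 = Y * tr (n / q) → Ball S (8 * A + 4 * B) Y := by
    intro Y0 Y X n hX hY0 h
    have h1 : Y = Y0 * tr s * Y0⁻¹ * X * Y0 * (tr (n / q))⁻¹ := eq_mul_inv_of_mul_eq h.symm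
    rw [h1]
    have h2 := ball_mul S hS _ _ _ _ (ball_mul S hS _ _ _ _ (ball_mul S hS _ _ _ _
      (ball_mul S hS _ _ _ _ (ball_mul S hS _ _ _ _ hY0 hs) (ball_inv S hS _ _ hY0)) hX) hY0)
      (ball_inv S hS _ _ (hn n))
    exact ball_mono S _ _ (by omega) _ h2
  have b0 : Ball S (A + B + A) (y 0 * tr (c 0)) := first _ _ n0 (hX 0) g0
  have b2 : Ball S (A + B + A) (y 2 * tr (c 2)) := first _ _ n2 (hX 2) g2
  have b1 : Ball S (8 * A + 4 * B) (y 1 * tr (c 1)) := second _ _ _ n1 (hX 1) b0 g1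
  have b3 : Ball S (8 * A + 4 * B) (y 3 * tr (c 3)) := second _ _ _ n3 (hX 3) b2 g3
  refine ⟨?_, ?_⟩
  · intro j
    fin_cases j
    · exact ball_mono S _ _ (by omega) _ b0
    · exact b1
    · exact ball_mono S _ _ (by omega) _ b2
    · exact b3
  · have h1 : tr θ = (y 1 * tr s * (y 1)⁻¹) * (y 3 * tr s * (y 3)⁻¹) * tr (-(2 * s)) *
        (tr (n4 / q))⁻¹ := eq_mul_inv_of_mul_eq g4.symm
    rw [h1]
    have h2 := ball_mul S hS _ _ _ _ (ball_mul S hS _ _ _ _ (ball_mul S hS _ _ _ _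
      (hX 1) (hX 3)) h2s) (ball_inv S hS _ _ (hn n4))
    exact ball_mono S _ _ (by omega) _ h2

/-- one step of the bookkeeping -/
theorem inv_step (S0 : Set (Equiv.Perm ℝ)) (hS0 : ∀ g ∈ S0, g * tr 1 = tr 1 * g)
    (q N q'' L : ℕ) (hq : 1 ≤ q) (hN : 2 ≤ N)
    (Q : Fin 2 → Fin 4 → Equiv.Perm ℝ) (hQ : ∀ i j, Q i j * tr 1 = tr 1 * Q i j)
    (hinv : Inv S0 q (6 * N * q) Q L) (θ : ℝ)
    (y : Fin 2 → Fin 4 → Equiv.Perm ℝ) (c : Fin 2 → Fin 4 → ℝ)
    (hy : ∀ i j, y i j * tr (1 / (q : ℝ)) = tr (1 / (q : ℝ)) * y i j)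
    (g0 : Gad (q : ℝ) (((N : ℝ) - 1) / (6 * N * q)) θ (y 0) (c 0))
    (g1 : Gad (q : ℝ) (((N : ℝ) - 1) / (6 * N * q)) (1 / (q'' : ℝ)) (y 1) (c 1)) :
    Inv S0 (6 * N * q) q'' (fun i j => Q i j * (y i j * tr (c i j))) (L1 N q L) ∧
    ∀ f : Fin 2 → Fin 4 → Equiv.Perm ℝ,
      (∀ i j, ∃ T : Equiv.Perm ℝ,
        T * tr (1 / ((6 * N * q : ℕ) : ℝ)) = tr (1 / ((6 * N * q : ℕ) : ℝ)) * T ∧
        f i j = (Q i j * (y i j * tr (c i j))) * T) →
      Ball (S0 ∪ {g | ∃ i j, g = f i j}) (L1 N q L) (tr θ) := by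
  have hqr : (q : ℝ) ≠ 0 := by
    have : (1 : ℝ) ≤ q := by exact_mod_cast hq
    positivity
  have hNr : (N : ℝ) ≠ 0 := by
    have : (2 : ℝ) ≤ N := by exact_mod_cast hN
    positivity
  have hq'1 : 1 ≤ 6 * N * q := by
    have h1 : 1 ≤ N := by omega
    calc 1 ≤ 6 * 1 * 1 := by norm_num
      _ ≤ 6 * N * q := Nat.mul_le_mul (Nat.mul_le_mul_left 6 h1) hq
  -- the main claim
  have main : ∀ f : Fin 2 → Fin 4 → Equiv.Perm ℝ,
      (∀ i j, ∃ T : Equiv.Perm ℝ,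
        T * tr (1 / ((6 * N * q : ℕ) : ℝ)) = tr (1 / ((6 * N * q : ℕ) : ℝ)) * T ∧
        f i j = (Q i j * (y i j * tr (c i j))) * T) →
      Ball (S0 ∪ {g | ∃ i j, g = f i j}) (L1 N q L) (tr θ) ∧
      Ball (S0 ∪ {g | ∃ i j, g = f i j}) (L1 N q L) (tr (1 / (q'' : ℝ))) ∧
      ∀ i j, Ball (S0 ∪ {g | ∃ i j, g = f i j}) (L1 N q L) (Q i j * (y i j * tr (c i j))) := by
    intro f hf
    choose T hT hfT using hf
    have hTq : ∀ i j (u : ℤ), Commute (T i j) (tr ((u : ℝ) / (q : ℝ))) := by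
      intro i j u
      have h1 := hT i j
      have h2 := comm_root (T i j) q (6 * N) hq (by omega) h1 u
      exact h2
    have hTq' : ∀ i j (u : ℤ), Commute (T i j) (tr ((u : ℝ) / ((6 * N * q : ℕ) : ℝ))) := by
      intro i j u
      have h1 : Commute (T i j) (tr (1 / ((6 * N * q : ℕ) : ℝ))) := hT i j
      have h2 := h1.zpow_right u
      rwa [tr_zpow, mul_one_div] at h2
    have hyq : ∀ i j, Commute (y i j) (tr (1 / (q : ℝ))) := hy
    have htail : ∀ i j, Commute (y i j * tr (c i j) * T i j) (tr (1 / (q : ℝ))) := by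
      intro i j
      refine ((hyq i j).mul_left (commute_tr _ _)).mul_left ?_
      have := hTq i j 1
      rwa [Int.cast_one] at this
    have hfQ : ∀ i j, f i j = Q i j * (y i j * tr (c i j) * T i j) := by
      intro i j
      rw [hfT i j, mul_assoc]
    obtain ⟨hb1, hbQ⟩ := hinv f fun i j => ⟨_, htail i j, hfQ i j⟩
    have hfc : ∀ i j, Commute (f i j) (tr 1) := by
      intro i j
      rw [hfQ i j]
      refine Commute.mul_left (hQ i j) ?_
      have h1 := (htail i j).zpow_right (q : ℤ)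
      rw [tr_zpow] at h1
      have h2 : ((q : ℤ) : ℝ) * (1 / (q : ℝ)) = 1 := by
        push_cast
        field_simp
      rwa [h2] at h1
    set S : Set (Equiv.Perm ℝ) := S0 ∪ {g | ∃ i j, g = f i j} with hSdef
    have hS : ∀ g ∈ S, g * tr 1 = tr 1 * g := by
      rintro g (hg | ⟨i, j, rfl⟩)
      · exact hS0 g hg
      · exact hfc i j
    have hfS : ∀ i j, Ball S 1 (f i j) := fun i j => ball_mem S _ (Or.inr ⟨i, j, rfl⟩)
    have hrat := ball_rat S hS L (6 * N * q) hq'1 hb1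
    have hseq : ((N : ℝ) - 1) / (6 * N * q) = (((N : ℤ) - 1 : ℤ) : ℝ) / ((6 * N * q : ℕ) : ℝ) := by
      push_cast
      rfl
    have hs : Ball S (6 * N * q * L) (tr (((N : ℝ) - 1) / (6 * N * q))) := by
      rw [hseq]
      exact hrat _
    have h2s : Ball S (6 * N * q * L) (tr (-(2 * (((N : ℝ) - 1) / (6 * N * q))))) := by
      have h1 : -(2 * (((N : ℝ) - 1) / (6 * N * q))) =
          ((-(2 * ((N : ℤ) - 1)) : ℤ) : ℝ) / ((6 * N * q : ℕ) : ℝ) := by
        push_cast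
        ring
      rw [h1]
      exact hrat _
    have hn : ∀ n : ℤ, Ball S (6 * N * q * L) (tr ((n : ℝ) / (q : ℝ))) := by
      intro n
      have h1 : (n : ℝ) / (q : ℝ) = ((6 * N * n : ℤ) : ℝ) / ((6 * N * q : ℕ) : ℝ) := by
        push_cast
        field_simp
      rw [h1]
      exact hrat _
    have hTs : ∀ i j, Commute (T i j) (tr (((N : ℝ) - 1) / (6 * N * q))) := by
      intro i j
      rw [hseq]
      exact hTq' i j _
    have hX : ∀ i j, Ball S (2 * L + 2 + 6 * N * q * L)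
        (y i j * tr (((N : ℝ) - 1) / (6 * N * q)) * (y i j)⁻¹) := by
      intro i j
      have h1 : y i j * tr (((N : ℝ) - 1) / (6 * N * q)) * (y i j)⁻¹ =
          (Q i j)⁻¹ * f i j * tr (((N : ℝ) - 1) / (6 * N * q)) * (f i j)⁻¹ * Q i j := by
        rw [hfQ i j]
        have e1 : T i j * tr (((N : ℝ) - 1) / (6 * N * q)) * (T i j)⁻¹ =
            tr (((N : ℝ) - 1) / (6 * N * q)) := by
          rw [(hTs i j).eq]
          group
        have e2 : tr (c i j) * tr (((N : ℝ) - 1) / (6 * N * q)) * (tr (c i j))⁻¹ =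
            tr (((N : ℝ) - 1) / (6 * N * q)) := by
          rw [(commute_tr (c i j) (((N : ℝ) - 1) / (6 * N * q))).eq]
          group
        calc y i j * tr (((N : ℝ) - 1) / (6 * N * q)) * (y i j)⁻¹
            = y i j * (tr (c i j) * (T i j * tr (((N : ℝ) - 1) / (6 * N * q)) * (T i j)⁻¹) *
                (tr (c i j))⁻¹) * (y i j)⁻¹ := by rw [e1, e2]
          _ = _ := by group
      rw [h1]
      have h2 := ball_mul S hS _ _ _ _ (ball_mul S hS _ _ _ _ (ball_mul S hS _ _ _ _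
        (ball_mul S hS _ _ _ _ (ball_inv S hS _ _ (hbQ i j)) (hfS i j)) hs)
        (ball_inv S hS _ _ (hfS i j))) (hbQ i j)
      exact ball_mono S _ _ (by omega) _ h2
    obtain ⟨a0, b0⟩ := gad_core S hS _ _ _ _ _ g0 _ _ hs hn h2s (hX 0)
    obtain ⟨a1, b1⟩ := gad_core S hS _ _ _ _ _ g1 _ _ hs hn h2s (hX 1)
    have hbound : L + (8 * (6 * N * q * L) + 4 * (2 * L + 2 + 6 * N * q * L)) ≤ L1 N q L := by
      unfold L1
      have : 20 * (6 * N * q + 1) * (L + 1) = 20 * (6 * N * q * L) + 20 * (6 * N * q) + 20 * L + 20 := by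
        ring
      rw [this]
      omega
    have hbound2 : 2 * (6 * N * q * L) + 2 * (2 * L + 2 + 6 * N * q * L) ≤ L1 N q L := by
      omega
    refine ⟨ball_mono S _ _ hbound2 _ b0, ball_mono S _ _ hbound2 _ b1, ?_⟩
    intro i j
    fin_cases i
    · exact ball_mono S _ _ hbound _ (ball_mul S hS _ _ _ _ (hbQ 0 j) (a0 j))
    · exact ball_mono S _ _ hbound _ (ball_mul S hS _ _ _ _ (hbQ 1 j) (a1 j))
  refine ⟨fun f hf => ?_, fun f hf => (main f hf).1⟩
  exact (main f hf).2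

end Pool.Agent.RotDist
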