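import Mathlib
import Pool.Agent.RotDist.Bst

set_option autoImplicit false

namespace Pool.Agent.RotDist

theorem RD1_ex (p : ℂ) (hp : ‖p‖ < 1) : ∃ g : Equiv.Perm ℝ, ∀ x, g x = bst p x := by
  refine ⟨⟨bst p, bst (-p), fun x => bst_inv p hp x, fun x => ?_⟩, fun x => rfl⟩
  have h := bst_inv (-p) (by rwa [norm_neg]) x
  rwa [neg_neg] at h

theorem bp_apply (p : ℂ) (hp : ‖p‖ < 1) (x : ℝ) : bp p x = bst p x := by
  unfold bp
  rw [dif_pos (RD1_ex p hp)]
  exact (RD1_ex p hp).choose_spec x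

theorem bp_inv (p : ℂ) (hp : ‖p‖ < 1) : (bp p)⁻¹ = bp (-p) := by
  ext x
  rw [Equiv.Perm.inv_eq_iff_eq, bp_apply p hp, bp_apply (-p) (by rwa [norm_neg])]
  have h := bst_inv (-p) (by rwa [norm_neg]) x
  rw [neg_neg] at h
  exact h.symm

/-- `bp` commutes with integer translations -/
theorem bp_int (p : ℂ) (hp : ‖p‖ < 1) (n : ℤ) : bp p * tr n = tr n * bp p := by
  ext x
  rw [Equiv.Perm.mul_apply, Equiv.Perm.mul_apply, tr_apply, tr_apply, bp_apply p hp,
    bp_apply p hp, bst_int]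

theorem bp_rot (p : ℂ) (hp : ‖p‖ < 1) (u : ℝ) : tr u * bp p * tr (-u) = bp (p * ee u) := by
  ext x
  rw [Equiv.Perm.mul_apply, Equiv.Perm.mul_apply, tr_apply, tr_apply, bp_apply p hp,
    bp_apply (p * ee u) (by rw [norm_mul, norm_ee, mul_one]; exact hp), ← sub_eq_add_neg, bst_rot]

/-- two continuous lifts of the same circle map differ by an integer translation -/
theorem lift_unique (g h : Equiv.Perm ℝ) (hg : Continuous g) (hh : Continuous h)
    (he : ∀ x, ee (g x) = ee (h x)) : ∃ n : ℤ, g = tr n * h := by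
  have h1 : ∀ x, ∃ n : ℤ, g x = h x + n := fun x => (ee_eq_iff _ _).1 (he x).symm
  choose n hn using h1
  have hc : Continuous n := by
    rw [Int.isClosedEmbedding_coe_real.isEmbedding.continuous_iff]
    have : ((↑) : ℤ → ℝ) ∘ n = fun x => g x - h x := by
      funext x
      simp only [Function.comp]
      rw [hn x]; ring
    rw [this]
    exact hg.sub hh
  refine ⟨n 0, ?_⟩
  ext x
  rw [Equiv.Perm.mul_apply, tr_apply, hn x]
  have : n x = n 0 := PreconnectedSpace.constant inferInstance hc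
  rw [this]

theorem RD1_cont_bp (p : ℂ) (hp : ‖p‖ < 1) : Continuous (bp p) := by
  have : (bp p : ℝ → ℝ) = bst p := funext fun x => bp_apply p hp x
  rw [this]
  exact bst_cont p hp

theorem RD1_cont_tr (c : ℝ) : Continuous (tr c) := by
  have : (tr c : ℝ → ℝ) = fun x => x + c := funext fun x => tr_apply c x
  rw [this]
  fun_prop

theorem RD1_cont_mul (g h : Equiv.Perm ℝ) (hg : Continuous g) (hh : Continuous h) :
    Continuous (g * h : Equiv.Perm ℝ) := by
  rw [Equiv.Perm.coe_mul]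
  exact hg.comp hh

theorem RD1_ee_bp (p : ℂ) (hp : ‖p‖ < 1) (x : ℝ) :
    ee (bp p x) = (ee x + p) / (1 + (starRingEnd ℂ) p * ee x) := by
  rw [bp_apply p hp, bst_ee p hp]

theorem RD1_ee_tr (c x : ℝ) : ee (tr c x) = ee c * ee x := by
  rw [tr_apply, ee_add, mul_comm]

theorem RD1_den (p z : ℂ) (hp : ‖p‖ < 1) (hz : ‖z‖ = 1) : 1 + (starRingEnd ℂ) p * z ≠ 0 := by
  intro h
  have h1 : (starRingEnd ℂ) p * z = -1 := by linear_combination h
  have h2 : ‖(starRingEnd ℂ) p * z‖ = 1 := by rw [h1, norm_neg, norm_one]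
  rw [norm_mul, hz, mul_one, RCLike.norm_conj] at h2
  linarith

theorem RD1_mul_conj (p : ℂ) : p * (starRingEnd ℂ) p = ((‖p‖ ^ 2 : ℝ) : ℂ) := by
  rw [Complex.mul_conj, Complex.normSq_eq_norm_sq]

theorem RD1_ee_ne (x : ℝ) : ee x ≠ 0 := by
  intro h
  have := norm_ee x
  rw [h, norm_zero] at this
  exact zero_ne_one this

/-- every number of modulus one is of the form `ee s` -/
theorem RD1_ee_surj (z : ℂ) (hz : ‖z‖ = 1) : ∃ s : ℝ, ee s = z := by
  refine ⟨Complex.arg z / (2 * Real.pi), ?_⟩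
  unfold ee
  have h1 : 2 * Real.pi * (Complex.arg z / (2 * Real.pi)) = Complex.arg z := by
    have := Real.pi_ne_zero
    field_simp
  rw [h1]
  have h2 := Complex.norm_mul_exp_arg_mul_I z
  rw [hz] at h2
  simpa using h2

/-- composition of boosts -/
theorem bp_mul (u w : ℂ) (hu : ‖u‖ < 1) (hw : ‖w‖ < 1) :
    ‖(u + w) / (1 + (starRingEnd ℂ) u * w)‖ < 1 ∧
    ∃ s : ℝ, bp u * bp w = bp ((u + w) / (1 + (starRingEnd ℂ) u * w)) * tr s := by
  obtain ⟨A, hA⟩ : ∃ A : ℂ, A = 1 + u * (starRingEnd ℂ) w := ⟨_, rfl⟩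
  have hAc : (starRingEnd ℂ) A = 1 + (starRingEnd ℂ) u * w := by
    rw [hA, map_add, map_one, map_mul, Complex.conj_conj]
  have hA0 : A ≠ 0 := by
    intro h
    rw [hA] at h
    have h1 : u * (starRingEnd ℂ) w = -1 := by linear_combination h
    have h2 : ‖u * (starRingEnd ℂ) w‖ = 1 := by rw [h1, norm_neg, norm_one]
    rw [norm_mul, RCLike.norm_conj] at h2
    nlinarith [norm_nonneg u, norm_nonneg w]
  have hAc0 : (starRingEnd ℂ) A ≠ 0 := by
    intro h
    exact hA0 ((map_eq_zero _).1 h)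
  rw [← hAc]
  have hnorm : ‖(u + w) / (starRingEnd ℂ) A‖ < 1 := by
    rw [norm_div, div_lt_one (norm_pos_iff.2 hAc0)]
    refine lt_of_pow_lt_pow_left₀ 2 (norm_nonneg _) ?_
    have h1 : (((‖(starRingEnd ℂ) A‖ ^ 2 - ‖u + w‖ ^ 2 : ℝ)) : ℂ) =
        (((1 - ‖u‖ ^ 2) * (1 - ‖w‖ ^ 2) : ℝ) : ℂ) := by
      rw [Complex.ofReal_sub, ← RD1_mul_conj, ← RD1_mul_conj, Complex.ofReal_mul,
        Complex.ofReal_sub, Complex.ofReal_sub, ← RD1_mul_conj, ← RD1_mul_conj, hAc, map_add,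
        map_add, map_one, map_mul, Complex.conj_conj, Complex.ofReal_one]
      ring
    have h2 : ‖(starRingEnd ℂ) A‖ ^ 2 - ‖u + w‖ ^ 2 = (1 - ‖u‖ ^ 2) * (1 - ‖w‖ ^ 2) := by
      exact_mod_cast h1
    have h3 : 0 < 1 - ‖u‖ ^ 2 := by nlinarith [norm_nonneg u]
    have h4 : 0 < 1 - ‖w‖ ^ 2 := by nlinarith [norm_nonneg w]
    have h5 := mul_pos h3 h4
    linarith
  refine ⟨hnorm, ?_⟩
  obtain ⟨s0, hs0⟩ := RD1_ee_surj (A / (starRingEnd ℂ) A) (by
    rw [norm_div, RCLike.norm_conj, div_self (norm_ne_zero_iff.2 hA0)])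
  obtain ⟨n, hn⟩ := lift_unique (bp u * bp w) (bp ((u + w) / (starRingEnd ℂ) A) * tr s0)
    (RD1_cont_mul _ _ (RD1_cont_bp u hu) (RD1_cont_bp w hw))
    (RD1_cont_mul _ _ (RD1_cont_bp _ hnorm) (RD1_cont_tr s0)) (by
      intro x
      rw [Equiv.Perm.mul_apply, Equiv.Perm.mul_apply, RD1_ee_bp u hu, RD1_ee_bp _ hnorm,
        RD1_ee_tr, hs0]
      have hd1 := RD1_den u (ee (bp w x)) hu (norm_ee _)
      have hd3 := RD1_den w (ee x) hw (norm_ee _)
      have hd2 := RD1_den ((u + w) / (starRingEnd ℂ) A) (ee (tr s0 x)) hnorm (norm_ee _)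
      rw [RD1_ee_tr, hs0] at hd2
      rw [RD1_ee_bp w hw] at hd1 ⊢
      generalize ee x = z at *
      rw [map_div₀, Complex.conj_conj] at hd2 ⊢
      rw [map_add] at hd2 ⊢
      generalize hcu : (starRingEnd ℂ) u = cu at *
      generalize hcw : (starRingEnd ℂ) w = cw at *
      generalize hB : (starRingEnd ℂ) A = B at *
      have e1 : 1 + cu * ((z + w) / (1 + cw * z)) =
          (B + (cu + cw) * z) / (1 + cw * z) := by
        rw [eq_div_iff hd3, add_mul, mul_assoc, div_mul_cancel₀ _ hd3, hAc]; ring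
      have e2 : 1 + (cu + cw) / A * (A / B * z) = (B + (cu + cw) * z) / B := by
        field_simp
      have e3 : (z + w) / (1 + cw * z) + u = (A * z + (u + w)) / (1 + cw * z) := by
        rw [eq_div_iff hd3, add_mul, div_mul_cancel₀ _ hd3, hA]; ring
      have e4 : A / B * z + (u + w) / B = (A * z + (u + w)) / B := by
        field_simp
      rw [e1] at hd1
      rw [e1, e2, e3, e4]
      have h0 : B + (cu + cw) * z ≠ 0 := by
        intro h; rw [h, zero_div] at hd1; exact hd1 rfl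
      rw [div_div_div_cancel_right₀ hd3, div_div_div_cancel_right₀ hAc0])
  refine ⟨n + s0, ?_⟩
  rw [hn, ← mul_assoc, ← bp_int _ hnorm, mul_assoc, tr_add]

theorem RD1_form (γ : ℝ) (a : ℂ) (ha : ‖a‖ < 1) (x : ℝ) :
    (1 - ee γ * ((‖a‖ ^ 2 : ℝ) : ℂ)) + (starRingEnd ℂ) a * ee x * (ee γ - 1) ≠ 0 ∧
    ee ((bp a * tr γ * (bp a)⁻¹) x) =
      ((ee γ - ((‖a‖ ^ 2 : ℝ) : ℂ)) * ee x + a * (1 - ee γ)) /
        ((1 - ee γ * ((‖a‖ ^ 2 : ℝ) : ℂ)) + (starRingEnd ℂ) a * ee x * (ee γ - 1)) := by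
  have hna : ‖-a‖ < 1 := by rwa [norm_neg]
  have hd1 := RD1_den (-a) (ee x) hna (norm_ee _)
  have hd2 := RD1_den a (ee (tr γ (bp (-a) x))) ha (norm_ee _)
  have hR := RD1_mul_conj a
  rw [Equiv.Perm.mul_apply, Equiv.Perm.mul_apply, bp_inv a ha, RD1_ee_bp a ha]
  rw [RD1_ee_tr, RD1_ee_bp (-a) hna] at hd2 ⊢
  generalize hz : ee x = z at *
  generalize hw : ee γ = w at *
  rw [map_neg] at hd1 hd2 ⊢
  generalize hc : (starRingEnd ℂ) a = c at *
  generalize hRR : ((‖a‖ ^ 2 : ℝ) : ℂ) = R at *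
  have e1 : 1 + c * (w * ((z + -a) / (1 + -c * z))) =
      ((1 - w * R) + c * z * (w - 1)) / (1 + -c * z) := by
    rw [eq_div_iff hd1]
    have : c * (w * ((z + -a) / (1 + -c * z))) * (1 + -c * z) = c * w * (z + -a) := by
      rw [mul_assoc, mul_assoc, div_mul_cancel₀ _ hd1]; ring
    rw [add_mul, this]
    linear_combination (-w) * hR
  have e2 : w * ((z + -a) / (1 + -c * z)) + a =
      ((w - R) * z + a * (1 - w)) / (1 + -c * z) := by
    rw [eq_div_iff hd1]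
    have : w * ((z + -a) / (1 + -c * z)) * (1 + -c * z) = w * (z + -a) := by
      rw [mul_assoc, div_mul_cancel₀ _ hd1]
    rw [add_mul, this]
    linear_combination (-z) * hR
  rw [e1] at hd2
  have h0 : (1 - w * R) + c * z * (w - 1) ≠ 0 := by
    intro h; rw [h, zero_div] at hd2; exact hd2 rfl
  refine ⟨h0, ?_⟩
  rw [e1, e2, div_div_div_cancel_right₀ hd1]

theorem RD1_cos (γ : ℝ) : ((2 * Real.cos (2 * Real.pi * γ) : ℝ) : ℂ) = ee γ + (ee γ)⁻¹ := by
  rw [← ee_neg]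
  unfold ee
  rw [Complex.ofReal_mul, Complex.ofReal_cos, Complex.ofReal_ofNat, Complex.two_cos]
  congr 2
  push_cast
  ring

theorem RD1_half : ee (1 / 2) = -1 := by
  unfold ee
  have : 2 * Real.pi * (1 / 2) = Real.pi := by ring
  rw [this, Complex.exp_pi_mul_I]

/-- trefoil relation -/
theorem rel_trefoil (γ : ℝ) (p : ℂ) (hp : ‖p‖ < 1)
    (h : ‖p‖ ^ 2 = 2 * Real.cos (2 * Real.pi * γ) - 1) :
    ∃ n : ℤ, tr γ * (bp p * tr γ * (bp p)⁻¹) = bp p * tr (1 / 2 - γ) * tr n := by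
  have hnp : ‖-p‖ < 1 := by rwa [norm_neg]
  have hR : ((‖p‖ ^ 2 : ℝ) : ℂ) = ee γ + (ee γ)⁻¹ - 1 := by
    rw [← RD1_cos, h]; push_cast; ring
  have hw0 := RD1_ee_ne γ
  have hw1 : 1 - ee γ ≠ 0 := by
    intro h1
    have h2 : ee γ = 1 := by linear_combination -h1
    rw [h2] at hR
    have h3 : ((‖p‖ ^ 2 : ℝ) : ℂ) = ((1 : ℝ) : ℂ) := by rw [hR]; norm_num
    have h4 : ‖p‖ ^ 2 = 1 := by exact_mod_cast h3
    nlinarith [norm_nonneg p]
  obtain ⟨n, hn⟩ := lift_unique (tr γ * (bp p * tr γ * (bp p)⁻¹)) (bp p * tr (1 / 2 - γ))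
    (RD1_cont_mul _ _ (RD1_cont_tr γ) (RD1_cont_mul _ _ (RD1_cont_mul _ _ (RD1_cont_bp p hp)
      (RD1_cont_tr γ)) (by rw [bp_inv p hp]; exact RD1_cont_bp _ hnp)))
    (RD1_cont_mul _ _ (RD1_cont_bp p hp) (RD1_cont_tr _)) (by
      intro x
      rw [Equiv.Perm.mul_apply, RD1_ee_tr]
      obtain ⟨hd, hf⟩ := RD1_form γ p hp x
      rw [hf, Equiv.Perm.mul_apply, RD1_ee_bp p hp]
      have hd2 := RD1_den p (ee (tr (1 / 2 - γ) x)) hp (norm_ee _)
      rw [RD1_ee_tr] at hd2 ⊢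
      have he : ee (1 / 2 - γ) = -(ee γ)⁻¹ := by
        rw [sub_eq_add_neg, ee_add, RD1_half, ee_neg]; ring
      rw [he] at hd2 ⊢
      generalize hz : ee x = z at *
      generalize hw : ee γ = w at *
      generalize hc : (starRingEnd ℂ) p = c at *
      generalize hRR : ((‖p‖ ^ 2 : ℝ) : ℂ) = R at *
      have hwi : w * w⁻¹ = 1 := mul_inv_cancel₀ hw0
      generalize hwi' : w⁻¹ = wi at *
      have e1 : (1 - w * R) + c * z * (w - 1) = (1 - w) * w * (1 + c * (-wi * z)) := by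
        rw [hR]
        linear_combination (-1 + c * z * (1 - w)) * hwi
      have e2 : w * ((w - R) * z + p * (1 - w)) = (1 - w) * w * (-wi * z + p) := by
        rw [hR]
        linear_combination (-(w * z)) * hwi
      rw [mul_div_assoc', e1, e2]
      rw [mul_div_mul_left _ _ (mul_ne_zero hw1 hw0)])
  refine ⟨n, ?_⟩
  rw [hn, mul_assoc, tr_add, ← mul_assoc, ← bp_int p hp, mul_assoc, tr_add, add_comm]

/-- half turn relation -/
theorem rel_half (γ v : ℝ) (a : ℂ) (ha : ‖a‖ < 1)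
    (h : ‖a‖ ^ 2 * Real.cos (Real.pi * (v - γ)) = Real.cos (Real.pi * (v + γ))) :
    ∃ n : ℤ, (bp a * tr γ * (bp a)⁻¹) * (bp (a * ee v) * tr γ * (bp (a * ee v))⁻¹) =
      tr (-(2 * v)) * tr n := by
  have hna : ‖-a‖ < 1 := by rwa [norm_neg]
  have hau : ‖a * ee v‖ < 1 := by rw [norm_mul, norm_ee, mul_one]; exact ha
  have hnau : ‖-(a * ee v)‖ < 1 := by rwa [norm_neg]
  have hcont : ∀ b : ℂ, ‖b‖ < 1 → Continuous (bp b * tr γ * (bp b)⁻¹ : Equiv.Perm ℝ) := by
    intro b hb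
    have hnb : ‖-b‖ < 1 := by rwa [norm_neg]
    exact RD1_cont_mul _ _ (RD1_cont_mul _ _ (RD1_cont_bp b hb)
      (RD1_cont_tr γ)) (by rw [bp_inv b hb]; exact RD1_cont_bp _ hnb)
  -- the relation
  have hrel : ((‖a‖ ^ 2 : ℝ) : ℂ) * (ee v + ee γ) = 1 + ee v * ee γ := by
    have h1 : ((‖a‖ ^ 2 : ℝ) : ℂ) * (2 * Complex.cos (Real.pi * (v - γ))) =
        2 * Complex.cos (Real.pi * (v + γ)) := by
      have h2 : ((‖a‖ ^ 2 * (2 * Real.cos (Real.pi * (v - γ))) : ℝ) : ℂ) =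
          ((2 * Real.cos (Real.pi * (v + γ)) : ℝ) : ℂ) := by
        congr 1; linarith
      push_cast at h2 ⊢
      exact h2
    rw [Complex.two_cos, Complex.two_cos] at h1
    have h4 : ee v = Complex.exp (Real.pi * (v - γ) * Complex.I) *
        Complex.exp (Real.pi * (v + γ) * Complex.I) := by
      rw [← Complex.exp_add]; unfold ee; congr 1; push_cast; ring
    have h5 : ee γ = Complex.exp (-(Real.pi * (v - γ)) * Complex.I) *
        Complex.exp (Real.pi * (v + γ) * Complex.I) := by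
      rw [← Complex.exp_add]; unfold ee; congr 1; push_cast; ring
    have h6 : ee v * ee γ = Complex.exp (Real.pi * (v + γ) * Complex.I) *
        Complex.exp (Real.pi * (v + γ) * Complex.I) := by
      unfold ee; rw [← Complex.exp_add, ← Complex.exp_add]; congr 1; push_cast; ring
    have h7 : (1 : ℂ) = Complex.exp (-(Real.pi * (v + γ)) * Complex.I) *
        Complex.exp (Real.pi * (v + γ) * Complex.I) := by
      rw [← Complex.exp_add]
      have : -(Real.pi * ((v : ℂ) + γ)) * Complex.I + Real.pi * (v + γ) * Complex.I = 0 := by ring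
      rw [this, Complex.exp_zero]
    linear_combination ((‖a‖ ^ 2 : ℝ) : ℂ) * h4 + ((‖a‖ ^ 2 : ℝ) : ℂ) * h5 - h7 - h6 +
      Complex.exp (Real.pi * (v + γ) * Complex.I) * h1
  obtain ⟨n, hn⟩ := lift_unique
    ((bp a * tr γ * (bp a)⁻¹) * (bp (a * ee v) * tr γ * (bp (a * ee v))⁻¹)) (tr (-(2 * v)))
    (RD1_cont_mul _ _ (hcont a ha) (hcont _ hau)) (RD1_cont_tr _) (by
      intro x
      rw [Equiv.Perm.mul_apply (bp a * tr γ * (bp a)⁻¹)]
      obtain ⟨hd', hf'⟩ := RD1_form γ (a * ee v) hau x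
      obtain ⟨hd, hf⟩ := RD1_form γ a ha ((bp (a * ee v) * tr γ * (bp (a * ee v))⁻¹) x)
      rw [hf, RD1_ee_tr]
      have he : ee (-(2 * v)) = (ee v)⁻¹ * (ee v)⁻¹ := by
        rw [ee_neg, two_mul, ee_add, mul_inv]
      rw [he]
      have hnn : ((‖a * ee v‖ ^ 2 : ℝ) : ℂ) = ((‖a‖ ^ 2 : ℝ) : ℂ) := by
        rw [norm_mul, norm_ee, mul_one]
      rw [hnn, map_mul, ee_conj, ee_neg] at hd' hf'
      have hu0 := RD1_ee_ne v
      generalize hy : ee ((bp (a * ee v) * tr γ * (bp (a * ee v))⁻¹) x) = y at *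
      generalize hz : ee x = z at *
      generalize hw : ee γ = w at *
      generalize hu : ee v = u at *
      generalize hc : (starRingEnd ℂ) a = c at *
      generalize hRR : ((‖a‖ ^ 2 : ℝ) : ℂ) = R at *
      have hui : u * u⁻¹ = 1 := mul_inv_cancel₀ hu0
      generalize hui' : u⁻¹ = ui at *
      rw [eq_div_iff hd'] at hf'
      rw [div_eq_iff hd]
      apply mul_right_cancel₀ hd'
      have hP : 1 - w * R = -(u * (w - R)) := by linear_combination -hrel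
      rw [hP] at hf' ⊢
      generalize w - R = P at *
      linear_combination (P - ui * ui * z * c * (w - 1)) * hf' +
        (-P ^ 2 * z * (u * ui + 1) - a * c * z * (w - 1) * (1 - w) * ui +
          ui ^ 2 * P * c * z ^ 2 * (w - 1)) * hui)
  refine ⟨n, ?_⟩
  rw [hn, tr_add, tr_add, add_comm]

end Pool.Agent.RotDist
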