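import Mathlib
import Pool.Agent.RotDist.Rel

set_option autoImplicit false

namespace Pool.Agent.RotDist

theorem lv_apply (q : ℝ) (hq : q ≠ 0) (g : Equiv.Perm ℝ) (x : ℝ) : lv q g x = g (q * x) / q := by
  unfold lv
  rw [dif_pos hq, Equiv.Perm.mul_apply, Equiv.Perm.mul_apply, Equiv.Perm.inv_eq_iff_eq]
  show g (q * x) = q * (g (q * x) / q)
  field_simp

theorem lv_mul (q : ℝ) (g h : Equiv.Perm ℝ) : lv q (g * h) = lv q g * lv q h := by
  unfold lv
  by_cases hq : q ≠ 0
  · rw [dif_pos hq, dif_pos hq, dif_pos hq]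
    group
  · rw [dif_neg hq, dif_neg hq, dif_neg hq]

theorem lv_inv (q : ℝ) (g : Equiv.Perm ℝ) : lv q g⁻¹ = (lv q g)⁻¹ := by
  unfold lv
  by_cases hq : q ≠ 0
  · rw [dif_pos hq, dif_pos hq]
    group
  · rw [dif_neg hq, dif_neg hq]

theorem lv_tr (q : ℝ) (hq : q ≠ 0) (c : ℝ) : lv q (tr c) = tr (c / q) := by
  ext x
  rw [lv_apply q hq, tr_apply, tr_apply]
  field_simp

theorem lv_mono (q : ℝ) (hq : 0 < q) (g : Equiv.Perm ℝ) (hg : StrictMono g) :
    StrictMono (lv q g) := by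
  intro x y hxy
  rw [lv_apply q hq.ne', lv_apply q hq.ne']
  exact div_lt_div_of_pos_right (hg (mul_lt_mul_of_pos_left hxy hq)) hq

/-- the gadget relations can be transported to level `q` -/
theorem gad_lv (q : ℝ) (hq : 0 < q) (s θ : ℝ) (y : Fin 4 → Equiv.Perm ℝ) (c : Fin 4 → ℝ)
    (h : Gad 1 s θ y c) :
    Gad q (s / q) (θ / q) (fun i => lv q (y i)) (fun i => c i / q) := by
  obtain ⟨⟨n1, h1⟩, ⟨n2, h2⟩, ⟨n3, h3⟩, ⟨n4, h4⟩, ⟨n5, h5⟩⟩ := h
  have H : ∀ a b : Equiv.Perm ℝ, a = b → lv q a = lv q b := fun a b h => by rw [h]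
  have e : -(2 * s) / q = -(2 * (s / q)) := by ring
  refine ⟨⟨n1, ?_⟩, ⟨n2, ?_⟩, ⟨n3, ?_⟩, ⟨n4, ?_⟩, ⟨n5, ?_⟩⟩
  · have := H _ _ h1
    simp only [lv_mul, lv_inv, lv_tr q hq.ne', div_one] at this
    exact this
  · have := H _ _ h2
    simp only [lv_mul, lv_inv, lv_tr q hq.ne', div_one] at this
    exact this
  · have := H _ _ h3
    simp only [lv_mul, lv_inv, lv_tr q hq.ne', div_one] at this
    exact this
  · have := H _ _ h4
    simp only [lv_mul, lv_inv, lv_tr q hq.ne', div_one] at this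
    exact this
  · have := H _ _ h5
    simp only [lv_mul, lv_inv, lv_tr q hq.ne', div_one, e] at this
    exact this

/-- holomorphic extension of the level `q` boosts to a strip -/
theorem ext_lv_bp (q : ℝ) (hq : 1 ≤ q) (p : ℂ) (ε : ℝ) (h1 : ‖p‖ * Real.exp (2 * Real.pi * q) ≤ 1 / 2)
    (h2 : ‖p‖ * Real.exp (2 * Real.pi * q) ≤ ε) : Ext (lv q (bp p)) ε := by
  have hq0 : 0 < q := by linarith
  have hpi := Real.pi_pos
  have hE : 1 ≤ Real.exp (2 * Real.pi * q) := Real.one_le_exp (by positivity)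
  have hp1 : ‖p‖ < 1 := by nlinarith [norm_nonneg p]
  have key : ∀ (r z : ℂ) (σ : ℝ), ‖r‖ = ‖p‖ → (σ = 1 ∨ σ = -1) → |z.im| < 1 →
      ‖r * Complex.exp ((σ * (2 * Real.pi * q) : ℝ) * Complex.I * z)‖ ≤
        ‖p‖ * Real.exp (2 * Real.pi * q) := by
    intro r z σ hr hσ hz
    rw [norm_mul, hr, Complex.norm_exp]
    refine mul_le_mul_of_nonneg_left (Real.exp_le_exp.2 ?_) (norm_nonneg p)
    have hre : (((σ * (2 * Real.pi * q) : ℝ) : ℂ) * Complex.I * z).re =
        -(σ * (2 * Real.pi * q)) * z.im := by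
      rw [mul_assoc, Complex.re_ofReal_mul, Complex.I_mul_re]; ring
    rw [hre]
    have hz' := abs_lt.1 hz
    have h2pq : 0 < 2 * Real.pi * q := by positivity
    rcases hσ with rfl | rfl
    · nlinarith
    · nlinarith
  have hu : ∀ z : ℂ, |z.im| < 1 →
      ‖p * Complex.exp ((-1 * (2 * Real.pi * q) : ℝ) * Complex.I * z)‖ ≤
        ‖p‖ * Real.exp (2 * Real.pi * q) := fun z hz => key p z (-1) rfl (Or.inr rfl) hz
  have hv : ∀ z : ℂ, |z.im| < 1 →
      ‖(starRingEnd ℂ p) * Complex.exp ((1 * (2 * Real.pi * q) : ℝ) * Complex.I * z)‖ ≤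
        ‖p‖ * Real.exp (2 * Real.pi * q) :=
    fun z hz => key _ z 1 (RCLike.norm_conj p) (Or.inl rfl) hz
  refine ⟨fun z => z + (1 / (2 * Real.pi * Complex.I * q)) *
    (Complex.log (1 + p * Complex.exp ((-1 * (2 * Real.pi * q) : ℝ) * Complex.I * z)) -
      Complex.log (1 + (starRingEnd ℂ p) *
        Complex.exp ((1 * (2 * Real.pi * q) : ℝ) * Complex.I * z))), ?_, ?_, ?_⟩
  · intro z hz
    have hz : |z.im| < 1 := hz
    apply DifferentiableAt.differentiableWithinAt
    have d1 : DifferentiableAt ℂ (fun z : ℂ => Complex.log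
        (1 + p * Complex.exp ((-1 * (2 * Real.pi * q) : ℝ) * Complex.I * z))) z := by
      refine DifferentiableAt.clog (by fun_prop) ?_
      exact Complex.mem_slitPlane_of_norm_lt_one (by linarith [hu z hz])
    have d2 : DifferentiableAt ℂ (fun z : ℂ => Complex.log
        (1 + (starRingEnd ℂ p) * Complex.exp ((1 * (2 * Real.pi * q) : ℝ) * Complex.I * z))) z := by
      refine DifferentiableAt.clog (by fun_prop) ?_
      exact Complex.mem_slitPlane_of_norm_lt_one (by linarith [hv z hz])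
    exact differentiableAt_id.add ((d1.sub d2).const_mul _)
  · intro x
    have hxim : |((x : ℂ)).im| < 1 := by simp
    have hw := hu x hxim
    obtain ⟨w, hwdef⟩ : ∃ w : ℂ, w = 1 + p * Complex.exp
      ((-1 * (2 * Real.pi * q) : ℝ) * Complex.I * x) := ⟨_, rfl⟩
    have hwslit : w ∈ Complex.slitPlane := by
      rw [hwdef]; exact Complex.mem_slitPlane_of_norm_lt_one (by linarith)
    have hconj : (1 + (starRingEnd ℂ p) *
        Complex.exp ((1 * (2 * Real.pi * q) : ℝ) * Complex.I * x)) = (starRingEnd ℂ) w := by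
      rw [hwdef, map_add, map_one, map_mul, ← Complex.exp_conj]
      congr 3
      rw [map_mul, map_mul, Complex.conj_ofReal, Complex.conj_ofReal, Complex.conj_I]
      push_cast
      ring
    show (x : ℂ) + (1 / (2 * Real.pi * Complex.I * q)) *
      (Complex.log (1 + p * Complex.exp ((-1 * (2 * Real.pi * q) : ℝ) * Complex.I * x)) -
      Complex.log (1 + (starRingEnd ℂ p) *
        Complex.exp ((1 * (2 * Real.pi * q) : ℝ) * Complex.I * x))) = _
    rw [hconj, ← hwdef, Complex.log_conj _ (Complex.mem_slitPlane_iff_arg.1 hwslit).1,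
      Complex.sub_conj, Complex.log_im, lv_apply q hq0.ne', bp_apply p hp1]
    unfold bst
    have hee : 1 + p * ee (-(q * x)) = w := by
      rw [hwdef]
      unfold ee
      congr 3
      push_cast
      ring
    rw [hee]
    have hI : Complex.I ≠ 0 := Complex.I_ne_zero
    have hpC : (Real.pi : ℂ) ≠ 0 := by exact_mod_cast hpi.ne'
    have hqC : (q : ℂ) ≠ 0 := by exact_mod_cast hq0.ne'
    push_cast
    field_simp
  · intro z hz
    show ‖z + (1 / (2 * Real.pi * Complex.I * q)) *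
      (Complex.log (1 + p * Complex.exp ((-1 * (2 * Real.pi * q) : ℝ) * Complex.I * z)) -
      Complex.log (1 + (starRingEnd ℂ p) *
        Complex.exp ((1 * (2 * Real.pi * q) : ℝ) * Complex.I * z))) - z‖ ≤ ε
    have a1 := Complex.norm_log_one_add_half_le_self (z := p * Complex.exp
      ((-1 * (2 * Real.pi * q) : ℝ) * Complex.I * z)) ((hu z hz).trans h1)
    have a2 := Complex.norm_log_one_add_half_le_self (z := (starRingEnd ℂ p) * Complex.exp
      ((1 * (2 * Real.pi * q) : ℝ) * Complex.I * z)) ((hv z hz).trans h1)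
    rw [add_sub_cancel_left, norm_mul]
    have a3 := norm_sub_le (Complex.log (1 + p * Complex.exp
      ((-1 * (2 * Real.pi * q) : ℝ) * Complex.I * z))) (Complex.log (1 + (starRingEnd ℂ p) *
        Complex.exp ((1 * (2 * Real.pi * q) : ℝ) * Complex.I * z)))
    have a4 : ‖(1 / (2 * Real.pi * Complex.I * q) : ℂ)‖ = 1 / (2 * Real.pi * q) := by
      rw [norm_div, norm_one, norm_mul, norm_mul, norm_mul, Complex.norm_I,
        Complex.norm_real, Complex.norm_real, Real.norm_of_nonneg hpi.le,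
        Real.norm_of_nonneg hq0.le, mul_one]
      norm_num
    rw [a4]
    have a5 := hu z hz
    have a6 := hv z hz
    obtain ⟨B, hB⟩ : ∃ B : ℝ, B = ‖p‖ * Real.exp (2 * Real.pi * q) := ⟨_, rfl⟩
    rw [← hB] at a5 a6 h2
    have hB0 : 0 ≤ B := by rw [hB]; positivity
    have h6 : 1 / (2 * Real.pi * q) ≤ 1 / 6 := by
      apply one_div_le_one_div_of_le (by norm_num)
      nlinarith [Real.pi_gt_three]
    have a7 : ‖Complex.log (1 + p * Complex.exp
      ((-1 * (2 * Real.pi * q) : ℝ) * Complex.I * z)) - Complex.log (1 + (starRingEnd ℂ p) *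
        Complex.exp ((1 * (2 * Real.pi * q) : ℝ) * Complex.I * z))‖ ≤ 3 * B := by linarith
    calc 1 / (2 * Real.pi * q) * ‖Complex.log (1 + p * Complex.exp
      ((-1 * (2 * Real.pi * q) : ℝ) * Complex.I * z)) - Complex.log (1 + (starRingEnd ℂ p) *
        Complex.exp ((1 * (2 * Real.pi * q) : ℝ) * Complex.I * z))‖
        ≤ 1 / 6 * (3 * B) := mul_le_mul h6 a7 (norm_nonneg _) (by norm_num)
      _ ≤ ε := by linarith

theorem ext_mul_tr (g : Equiv.Perm ℝ) (ε c : ℝ) (h : Ext g ε) : Ext (g * tr c) (ε + |c|) := by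
  obtain ⟨G, h1, h2, h3⟩ := h
  have him : ∀ z : ℂ, (z + (c : ℂ)).im = z.im := fun z => by simp
  refine ⟨fun z => G (z + c), ?_, ?_, ?_⟩
  · refine h1.comp (by fun_prop) ?_
    intro z hz
    show |(z + (c : ℂ)).im| < 1
    rw [him]; exact hz
  · intro x
    rw [Equiv.Perm.mul_apply, tr_apply, ← h2 (x + c)]
    push_cast
    rfl
  · intro z hz
    have a1 := h3 (z + c) (by rw [him]; exact hz)
    calc ‖G (z + c) - z‖ = ‖(G (z + c) - (z + c)) + (c : ℂ)‖ := by congr 1; ring
      _ ≤ ‖G (z + c) - (z + c)‖ + ‖(c : ℂ)‖ := norm_add_le _ _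
      _ ≤ ε + |c| := by
        rw [Complex.norm_real, Real.norm_eq_abs]; linarith

end Pool.Agent.RotDist
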