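import Mathlib
import Pool.Agent.RotDist.ExtLv

set_option autoImplicit false

namespace Pool.Agent.RotDist

theorem grp_aux1_943 {H : Type*} [Group H] (A B C G S X K N : H) (hX : A * B = X * S)
    (hSG : S * G = G * S) (hCG : C * G = G * C)
    (hT : G * ((C⁻¹ * B * C) * G * (C⁻¹ * B * C)⁻¹) = (C⁻¹ * B * C) * K * N) :
    (A * C) * G * (A * C)⁻¹ * (X * G * X⁻¹) * (A * C) = X * (S * C * K * N) := by
  have hX' : X = A * B * S⁻¹ := eq_mul_inv_of_mul_eq hX.symm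
  subst hX'
  have hSG' : S⁻¹ * G * S = G := by rw [mul_assoc, ← hSG, inv_mul_cancel_left]
  have hCG' : C * G * C⁻¹ = G := by rw [hCG, mul_inv_cancel_right]
  calc (A * C) * G * (A * C)⁻¹ * ((A * B * S⁻¹) * G * (A * B * S⁻¹)⁻¹) * (A * C)
      = A * (C * (G * ((C⁻¹ * B) * (S⁻¹ * G * S) * (B⁻¹ * C)))) := by group
    _ = A * (C * (G * ((C⁻¹ * B) * G * (B⁻¹ * C)))) := by rw [hSG']
    _ = A * (C * (G * ((C⁻¹ * B) * (C * G * C⁻¹) * (B⁻¹ * C)))) := by rw [hCG']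
    _ = A * (C * (G * ((C⁻¹ * B * C) * G * (C⁻¹ * B * C)⁻¹))) := by group
    _ = A * (C * ((C⁻¹ * B * C) * K * N)) := by rw [hT]
    _ = A * B * S⁻¹ * (S * C * K * N) := by group

theorem grp_aux2_943 {H : Type*} [Group H] (y0 y1 V C G D N : H)
    (hC : V⁻¹ * C = C * V⁻¹) (hG : V⁻¹ * G = G * V⁻¹) (hD : V⁻¹ * D = D * V⁻¹)
    (hN : V⁻¹ * N = N * V⁻¹)
    (h : (y0 * C) * G * (y0 * C)⁻¹ * (y1 * G * y1⁻¹) * (y0 * C) = y1 * D * N) :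
    ((V * y0 * V⁻¹) * C) * G * ((V * y0 * V⁻¹) * C)⁻¹ *
      ((V * y1 * V⁻¹) * G * (V * y1 * V⁻¹)⁻¹) * ((V * y0 * V⁻¹) * C) =
      (V * y1 * V⁻¹) * D * N := by
  have e1 : (V * y0 * V⁻¹) * C = V * (y0 * C) * V⁻¹ := by
    rw [mul_assoc, hC]; group
  have e2 : V⁻¹ * G * V = G := by rw [hG, inv_mul_cancel_right]
  rw [e1]
  calc V * (y0 * C) * V⁻¹ * G * (V * (y0 * C) * V⁻¹)⁻¹ *
      ((V * y1 * V⁻¹) * G * (V * y1 * V⁻¹)⁻¹) * (V * (y0 * C) * V⁻¹)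
      = V * ((y0 * C) * (V⁻¹ * G * V) * (y0 * C)⁻¹ * (y1 * (V⁻¹ * G * V) * y1⁻¹) * (y0 * C)) * V⁻¹ := by
        group
    _ = V * (y1 * D * N) * V⁻¹ := by rw [e2, h]
    _ = V * y1 * (D * (N * V⁻¹)) := by group
    _ = V * y1 * (V⁻¹ * D * N) := by rw [← hN, ← mul_assoc D, ← hD]
    _ = (V * y1 * V⁻¹) * D * N := by group

theorem tr_comm_943 (a b : ℝ) : tr a * tr b = tr b * tr a := by
  rw [tr_add, tr_add, add_comm]

/-- chain lemma: moving from the point `a'` to the point `a` at the equilateral distance -/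
theorem chain_rel (γ c0 : ℝ) (a' p1 : ℂ) (ha' : ‖a'‖ < 1) (hp1 : ‖p1‖ < 1)
    (h1 : ‖p1‖ ^ 2 = 2 * Real.cos (2 * Real.pi * γ) - 1) :
    ∃ c1 : ℝ, 0 ≤ c1 ∧ c1 ≤ 1 ∧ ∃ n : ℤ,
      (bp a' * tr c0) * tr γ * (bp a' * tr c0)⁻¹ *
        (bp ((a' + p1) / (1 + (starRingEnd ℂ) a' * p1)) * tr γ *
          (bp ((a' + p1) / (1 + (starRingEnd ℂ) a' * p1)))⁻¹) * (bp a' * tr c0) =
      bp ((a' + p1) / (1 + (starRingEnd ℂ) a' * p1)) * tr c1 * tr n := by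
  obtain ⟨_, s, hs⟩ := bp_mul a' p1 ha' hp1
  have hrot := bp_rot p1 hp1 (-c0)
  have hp : ‖p1 * ee (-c0)‖ = ‖p1‖ := by rw [norm_mul, norm_ee, mul_one]
  obtain ⟨n, hn⟩ := rel_trefoil γ (p1 * ee (-c0)) (by rw [hp]; exact hp1) (by rw [hp]; exact h1)
  rw [← hrot, neg_neg, ← tr_inv] at hn
  have key := grp_aux1_943 (bp a') (bp p1) (tr c0) (tr γ) (tr s) _ (tr (1 / 2 - γ)) (tr n) hs
    (tr_comm_943 _ _) (tr_comm_943 _ _) hn
  refine ⟨Int.fract (s + c0 + (1 / 2 - γ)), Int.fract_nonneg _, (Int.fract_lt_one _).le,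
    ⌊s + c0 + (1 / 2 - γ)⌋ + n, ?_⟩
  rw [key, tr_add, tr_add, tr_add, mul_assoc, tr_add]
  congr 2
  have := Int.fract_add_floor (s + c0 + (1 / 2 - γ))
  push_cast
  linarith

/-- existence of the second point at a prescribed distance from the origin -/
theorem second_point (τ R : ℝ) (h0 : 0 < τ) (h1 : τ < 1) (hR : 0 ≤ R) (hR2 : R ≤ τ) :
    ∃ p1 : ℂ, ‖p1‖ = τ ∧ ‖((τ : ℂ) + p1) / (1 + (starRingEnd ℂ) (τ : ℂ) * p1)‖ = R := by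
  have hR1 : R < 1 := lt_of_le_of_lt hR2 h1
  have hRR : R ^ 2 < 1 := by nlinarith
  have hRτ : R ^ 2 ≤ τ ^ 2 := by nlinarith
  have hτ2 : τ ^ 2 < 1 := by nlinarith
  have hden : 0 < 2 * τ ^ 2 * (1 - R ^ 2) := by
    apply mul_pos (by positivity); linarith
  obtain ⟨x, hx⟩ : ∃ x : ℝ, x = (2 * τ ^ 2 - R ^ 2 * (1 + τ ^ 4)) / (2 * τ ^ 2 * (1 - R ^ 2)) :=
    ⟨_, rfl⟩
  have hxe : x * (2 * τ ^ 2 * (1 - R ^ 2)) = 2 * τ ^ 2 - R ^ 2 * (1 + τ ^ 4) := by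
    rw [hx, div_mul_cancel₀ _ hden.ne']
  have hx1 : x ≤ 1 := by
    rw [hx, div_le_one hden]
    nlinarith [mul_nonneg (sq_nonneg R) (sq_nonneg (1 - τ ^ 2))]
  have hx2 : -1 ≤ x := by
    rw [hx, le_div_iff₀ hden]
    have h3 : R ^ 2 * (1 + τ ^ 2) ^ 2 ≤ τ ^ 2 * 4 := by
      apply mul_le_mul hRτ _ (by positivity) (by positivity)
      nlinarith [sq_nonneg τ]
    nlinarith
  obtain ⟨y, hy⟩ : ∃ y : ℝ, x ^ 2 + y ^ 2 = 1 := by
    refine ⟨Real.sqrt (1 - x ^ 2), ?_⟩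
    rw [Real.sq_sqrt (by nlinarith)]; ring
  have hn1 : ∀ z : ℂ, ‖z‖ ^ 2 = z.re ^ 2 + z.im ^ 2 := by
    intro z
    rw [← Complex.normSq_eq_norm_sq, Complex.normSq_apply]; ring
  have hp : ‖(⟨-τ * x, -τ * y⟩ : ℂ)‖ = τ := by
    have h4 : ‖(⟨-τ * x, -τ * y⟩ : ℂ)‖ ^ 2 = τ ^ 2 := by
      rw [hn1]
      simp only
      nlinarith
    exact (pow_left_inj₀ (norm_nonneg _) h0.le (by norm_num)).mp h4
  refine ⟨⟨-τ * x, -τ * y⟩, hp, ?_⟩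
  have hne : (0 : ℝ) < ‖1 + (starRingEnd ℂ) (τ : ℂ) * (⟨-τ * x, -τ * y⟩ : ℂ)‖ := by
    rw [norm_pos_iff]
    intro h5
    have h6 : (starRingEnd ℂ) (τ : ℂ) * (⟨-τ * x, -τ * y⟩ : ℂ) = -1 := by
      linear_combination h5
    have h7 : ‖(starRingEnd ℂ) (τ : ℂ) * (⟨-τ * x, -τ * y⟩ : ℂ)‖ = 1 := by
      rw [h6]; simp
    rw [norm_mul, hp, RCLike.norm_conj, Complex.norm_real, Real.norm_eq_abs, abs_of_pos h0] at h7
    nlinarith
  rw [norm_div, div_eq_iff hne.ne']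
  apply (pow_left_inj₀ (norm_nonneg _) (by positivity) (n := 2) (by norm_num)).mp
  rw [mul_pow, hn1, hn1]
  simp only [Complex.conj_ofReal, Complex.add_re, Complex.add_im, Complex.ofReal_re,
    Complex.ofReal_im, Complex.one_re, Complex.one_im, Complex.mul_re, Complex.mul_im]
  have hy2 : y ^ 2 = 1 - x ^ 2 := by linarith
  have e1 : (τ + -τ * x) ^ 2 + (0 + -τ * y) ^ 2 = τ ^ 2 * (2 - 2 * x) := by
    have : (τ + -τ * x) ^ 2 + (0 + -τ * y) ^ 2 = τ ^ 2 * (1 - 2 * x + x ^ 2 + y ^ 2) := by ring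
    rw [this, hy2]; ring
  have e2 : (1 + (τ * (-τ * x) - 0 * (-τ * y))) ^ 2 + (0 + (τ * (-τ * y) + 0 * (-τ * x))) ^ 2 =
      1 - 2 * τ ^ 2 * x + τ ^ 4 := by
    have : (1 + (τ * (-τ * x) - 0 * (-τ * y))) ^ 2 + (0 + (τ * (-τ * y) + 0 * (-τ * x))) ^ 2 =
      1 - 2 * τ ^ 2 * x + τ ^ 4 * (x ^ 2 + y ^ 2) := by ring
    rw [this, hy, mul_one]
  rw [e1, e2]
  linear_combination -hxe

/-- the gadget at level one -/
theorem base_gadget (γ η τ : ℝ) (hγ : 1 / 12 ≤ γ) (hγ' : γ < 1 / 6) (hτ : 0 < τ)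
    (hτ2 : τ ^ 2 = 2 * Real.cos (2 * Real.pi * γ) - 1) (hη : 0 < η) (hη1 : η ≤ 1 / 12)
    (hη2 : Real.sin (Real.pi * η / 2) ≤ τ ^ 2 * Real.sin (2 * Real.pi * γ + Real.pi * η / 2)) :
    ∃ (p : Fin 4 → ℂ) (c : Fin 4 → ℝ), (∀ i, ‖p i‖ ≤ τ) ∧ (∀ i, |c i| ≤ 1) ∧
      Gad 1 γ η (fun i => bp (p i)) c := by
  have hpi := Real.pi_pos
  have hcos : Real.cos (2 * Real.pi * γ) < 1 := by
    have h1 : Real.cos (2 * Real.pi * γ) < Real.cos 0 := by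
      apply Real.cos_lt_cos_of_nonneg_of_le_pi le_rfl
      · nlinarith
      · nlinarith
    rwa [Real.cos_zero] at h1
  have hτ1 : τ < 1 := by nlinarith
  have hs1 : 0 < Real.sin (2 * Real.pi * γ + Real.pi * η / 2) := by
    apply Real.sin_pos_of_pos_of_lt_pi
    · nlinarith
    · nlinarith
  have hs2 : 0 ≤ Real.sin (Real.pi * η / 2) := by
    apply Real.sin_nonneg_of_nonneg_of_le_pi
    · positivity
    · nlinarith
  obtain ⟨R, hR0, hR⟩ : ∃ R : ℝ, 0 ≤ R ∧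
      R ^ 2 = Real.sin (Real.pi * η / 2) / Real.sin (2 * Real.pi * γ + Real.pi * η / 2) :=
    ⟨Real.sqrt _, Real.sqrt_nonneg _, Real.sq_sqrt (by positivity)⟩
  have hRτ : R ≤ τ := by
    apply (pow_le_pow_iff_left₀ hR0 hτ.le (n := 2) (by norm_num)).mp
    rw [hR, div_le_iff₀ hs1]
    exact hη2
  obtain ⟨p1, hp1, hp2⟩ := second_point τ R hτ hτ1 hR0 hRτ
  obtain ⟨a, ha⟩ : ∃ a : ℂ, a = ((τ : ℂ) + p1) / (1 + (starRingEnd ℂ) (τ : ℂ) * p1) := ⟨_, rfl⟩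
  have hτn : ‖(τ : ℂ)‖ = τ := by rw [Complex.norm_real, Real.norm_eq_abs, abs_of_pos hτ]
  obtain ⟨c1, hc1, hc2, n3, hn3⟩ := chain_rel γ (1 / 2 - γ) (τ : ℂ) p1 (by rw [hτn]; exact hτ1)
    (by rw [hp1]; exact hτ1) (by rw [hp1]; exact hτ2)
  rw [← ha] at hn3 hp2
  obtain ⟨v, hv⟩ : ∃ v : ℝ, v = 1 / 2 - γ - η / 2 := ⟨_, rfl⟩
  have hτvn : ‖(τ : ℂ) * ee v‖ = τ := by rw [norm_mul, norm_ee, mul_one, hτn]
  have havn : ‖a * ee v‖ = R := by rw [norm_mul, norm_ee, mul_one, hp2]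
  obtain ⟨n1, hn1⟩ := rel_trefoil γ (τ : ℂ) (by rw [hτn]; exact hτ1) (by rw [hτn]; exact hτ2)
  obtain ⟨n2, hn2⟩ := rel_trefoil γ ((τ : ℂ) * ee v) (by rw [hτvn]; exact hτ1)
    (by rw [hτvn]; exact hτ2)
  have haa : ‖a‖ < 1 := by rw [hp2]; exact lt_of_le_of_lt hRτ hτ1
  obtain ⟨n5, hn5⟩ := rel_half γ v a haa (by
    rw [hp2, hR, div_mul_eq_mul_div, div_eq_iff hs1.ne']
    have e1 : Real.cos (Real.pi * (v - γ)) = Real.sin (2 * Real.pi * γ + Real.pi * η / 2) := by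
      rw [← Real.cos_pi_div_two_sub]; congr 1; rw [hv]; ring
    have e2 : Real.cos (Real.pi * (v + γ)) = Real.sin (Real.pi * η / 2) := by
      rw [← Real.cos_pi_div_two_sub]; congr 1; rw [hv]; ring
    rw [e1, e2])
  have hb0 := bp_rot (τ : ℂ) (by rw [hτn]; exact hτ1) v
  have hb1 := bp_rot a haa v
  rw [← tr_inv] at hb0 hb1
  refine ⟨![(τ : ℂ), a, (τ : ℂ) * ee v, a * ee v], ![1 / 2 - γ, c1, 1 / 2 - γ, c1], ?_, ?_, ?_⟩
  · intro i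
    fin_cases i
    · exact hτn.le
    · exact hp2.le.trans hRτ
    · exact hτvn.le
    · exact havn.le.trans hRτ
  · intro i
    have hc0 : |1 / 2 - γ| ≤ 1 := by rw [abs_le]; constructor <;> linarith
    have hc1' : |c1| ≤ 1 := by rw [abs_le]; constructor <;> linarith
    fin_cases i
    · exact hc0
    · exact hc1'
    · exact hc0
    · exact hc1'
  · have hcomm : ∀ x : ℝ, (tr v)⁻¹ * tr x = tr x * (tr v)⁻¹ := by
      intro x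
      rw [tr_inv]; exact tr_comm_943 _ _
    refine ⟨⟨n1, ?_⟩, ⟨n2, ?_⟩, ⟨n3, ?_⟩, ⟨n3, ?_⟩, ⟨n5 - 1, ?_⟩⟩
    · simp only [Matrix.cons_val, div_one]
      exact hn1
    · simp only [Matrix.cons_val, div_one]
      exact hn2
    · simp only [Matrix.cons_val, div_one]
      exact hn3
    · simp only [Matrix.cons_val, div_one]
      rw [← hb0, ← hb1]
      exact grp_aux2_943 _ _ _ _ _ _ _ (hcomm _) (hcomm _) (hcomm _) (hcomm _) hn3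
    · simp only [Matrix.cons_val, div_one]
      rw [hn5, tr_add, tr_add, tr_add]
      congr 1
      rw [hv]; push_cast; ring

end Pool.Agent.RotDist
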