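import Mathlib
import Pool.Agent.RotDist.Defs

set_option autoImplicit false

namespace Pool.Agent.RotDist

/-- `cmp G m k = G m ∘ G (m+1) ∘ ⋯ ∘ G (m+k-1)` -/
def cmp (G : ℕ → ℂ → ℂ) (m : ℕ) : ℕ → ℂ → ℂ
  | 0 => id
  | k + 1 => fun z => cmp G m k (G (m + k) z)

lemma cmpl_conv (c : ℝ) : Convex ℝ {z : ℂ | |z.im| < c} := by
  have h := (convex_Ioo (-c) c).linear_preimage Complex.imLm
  have h2 : {z : ℂ | |z.im| < c} = Complex.imLm ⁻¹' (Set.Ioo (-c) c) := by
    ext z
    simp only [Set.mem_ofPred_eq, Set.mem_preimage, Set.mem_Ioo, abs_lt]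
    rfl
  rw [h2]
  exact h

lemma cmpl_open (c : ℝ) : IsOpen {z : ℂ | |z.im| < c} :=
  isOpen_lt (by fun_prop) continuous_const

lemma cmpl_im {z w : ℂ} {δ : ℝ} (h : ‖w - z‖ ≤ δ) : |w.im| ≤ |z.im| + δ := by
  have h1 : |(w - z).im| ≤ δ := (Complex.abs_im_le_norm _).trans h
  rw [Complex.sub_im] at h1
  have h2 : |w.im| ≤ |w.im - z.im| + |z.im| := by
    have := abs_add_le (w.im - z.im) z.im
    rwa [sub_add_cancel] at this
  linarith

lemma cmpl_A (G : ℕ → ℂ → ℂ) (ε : ℕ → ℝ) (hε : ∀ m, 0 ≤ ε m)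
    (hd : ∀ m, DifferentiableOn ℂ (G m) {z | |z.im| < 1})
    (hb : ∀ m, ∀ z : ℂ, |z.im| < 1 → ‖G m z - z‖ ≤ ε m) (m : ℕ) (k : ℕ) :
    ∀ z : ℂ, |z.im| + ∑ i ∈ Finset.range k, ε (m + i) < 1 →
      ‖cmp G m k z - z‖ ≤ ∑ i ∈ Finset.range k, ε (m + i) ∧
      DifferentiableAt ℂ (cmp G m k) z := by
  induction k with
  | zero =>
    intro z _
    refine ⟨by simp [cmp], ?_⟩
    exact differentiableAt_id
  | succ k ih =>
    intro z hz
    rw [Finset.sum_range_succ] at hz ⊢
    have hs0 : 0 ≤ ∑ i ∈ Finset.range k, ε (m + i) := Finset.sum_nonneg fun i _ => hε _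
    have hz1 : |z.im| < 1 := by linarith [hε (m + k)]
    have hw := hb (m + k) z hz1
    have hwi := cmpl_im hw
    obtain ⟨h1, h2⟩ := ih (G (m + k) z) (by linarith)
    constructor
    · have e1 : cmp G m (k + 1) z - z = (cmp G m k (G (m + k) z) - G (m + k) z) +
          (G (m + k) z - z) := by simp only [cmp]; ring
      rw [e1]
      exact (norm_add_le _ _).trans (add_le_add h1 hw)
    · have hGd : DifferentiableAt ℂ (G (m + k)) z :=
        (hd (m + k)).differentiableAt ((cmpl_open 1).mem_nhds hz1)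
      exact h2.comp z hGd

theorem cmp_limit (G : ℕ → ℂ → ℂ) (ε : ℕ → ℝ) (hε : ∀ m, 0 ≤ ε m)
    (hsum : ∀ m, ∑ i ∈ Finset.range m, ε i ≤ 1 / 4)
    (hd : ∀ m, DifferentiableOn ℂ (G m) {z | |z.im| < 1})
    (hb : ∀ m, ∀ z : ℂ, |z.im| < 1 → ‖G m z - z‖ ≤ ε m) (m : ℕ) :
    ∃ H : ℂ → ℂ, DifferentiableOn ℂ H {z | |z.im| < 1 / 4} ∧
      (∀ z : ℂ, |z.im| < 1 / 4 →
        Filter.Tendsto (fun k => cmp G m k z) Filter.atTop (nhds (H z))) ∧
      (∀ z : ℂ, |z.im| < 1 / 4 → ‖H z - z‖ ≤ 1 / 4) ∧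
      (∀ z : ℂ, |z.im| < 1 / 4 →
        Filter.Tendsto (fun k => deriv (cmp G m k) z) Filter.atTop (nhds (deriv H z))) ∧
      (∀ (k : ℕ) (z : ℂ), |z.im| < 1 / 4 → ‖deriv (cmp G m k) z‖ ≤ 2) := by
  have hsk : ∀ k, ∑ i ∈ Finset.range k, ε (m + i) ≤ 1 / 4 := by
    intro k
    have h1 := hsum (m + k)
    rw [Finset.sum_range_add] at h1
    have h2 : 0 ≤ ∑ i ∈ Finset.range m, ε i := Finset.sum_nonneg fun i _ => hε _
    linarith
  have hεle : ∀ j, ε j ≤ 1 / 4 := by
    intro j
    have h1 := hsum (j + 1)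
    rw [Finset.sum_range_succ] at h1
    have h2 : 0 ≤ ∑ i ∈ Finset.range j, ε i := Finset.sum_nonneg fun i _ => hε _
    linarith
  have hA : ∀ k, ∀ z : ℂ, |z.im| < 3 / 4 → ‖cmp G m k z - z‖ ≤ 1 / 4 ∧
      DifferentiableAt ℂ (cmp G m k) z := by
    intro k z hz
    obtain ⟨h1, h2⟩ := cmpl_A G ε hε hd hb m k z (by linarith [hsk k])
    exact ⟨h1.trans (hsk k), h2⟩
  -- derivative bound
  have hD : ∀ (k : ℕ) (z : ℂ), |z.im| < 1 / 2 → ‖deriv (cmp G m k) z‖ ≤ 2 := by
    intro k z hz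
    have hin : ∀ w ∈ Metric.closedBall z (1 / 4), |w.im| < 3 / 4 := by
      intro w hw
      rw [Metric.mem_closedBall, dist_eq_norm] at hw
      linarith [cmpl_im hw]
    have hdf : DiffContOnCl ℂ (fun w => cmp G m k w - w) (Metric.ball z (1 / 4)) := by
      apply DifferentiableOn.diffContOnCl
      rw [closure_ball z (by norm_num)]
      intro w hw
      exact ((hA k w (hin w hw)).2.sub differentiableAt_id).differentiableWithinAt
    have h1 := Complex.norm_deriv_le_of_forall_mem_sphere_norm_le (by norm_num) hdf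
      (fun w hw => (hA k w (hin w (Metric.sphere_subset_closedBall hw))).1)
    have h2 : deriv (fun w => cmp G m k w - w) z = deriv (cmp G m k) z - 1 := by
      have := ((hA k z (by linarith)).2.hasDerivAt.sub (hasDerivAt_id z)).deriv
      exact this
    rw [h2] at h1
    have h3 : deriv (cmp G m k) z = (deriv (cmp G m k) z - 1) + 1 := by ring
    rw [h3]
    refine (norm_add_le _ _).trans ?_
    rw [norm_one]
    norm_num at h1
    linarith
  -- steps
  set U : Set ℂ := {z | |z.im| < 1 / 4} with hU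
  have hUo : IsOpen U := cmpl_open _
  have hstep : ∀ (k : ℕ) (z : ℂ), z ∈ U → ‖cmp G m (k + 1) z - cmp G m k z‖ ≤ 2 * ε (m + k) := by
    intro k z hz
    have hz' : |z.im| < 1 / 4 := hz
    have hw := hb (m + k) z (by linarith)
    have hwi := cmpl_im hw
    have h1 := Convex.norm_image_sub_le_of_norm_deriv_le (𝕜 := ℂ) (f := cmp G m k) (C := 2)
      (s := {z : ℂ | |z.im| < 1 / 2}) (x := z) (y := G (m + k) z)
      (fun x hx => (hA k x (by
        have hx' : |x.im| < 1 / 2 := hx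
        linarith)).2)
      (fun x hx => hD k x hx) (cmpl_conv _) (by
        have : |z.im| < 1 / 2 := by linarith
        exact this) (by
        have : |(G (m + k) z).im| < 1 / 2 := by linarith [hεle (m + k)]
        exact this)
    calc ‖cmp G m (k + 1) z - cmp G m k z‖ = ‖cmp G m k (G (m + k) z) - cmp G m k z‖ := rfl
      _ ≤ 2 * ‖G (m + k) z - z‖ := h1
      _ ≤ 2 * ε (m + k) := by linarith
  have hεs : Summable ε := summable_of_sum_range_le hε hsum
  have hεs' : Summable fun k => 2 * ε (m + k) := by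
    have : Summable fun k => ε (m + k) := by
      have := (summable_nat_add_iff m).2 hεs
      refine this.congr fun k => ?_
      rw [add_comm]
    exact this.mul_left 2
  have hunif := tendstoUniformlyOn_tsum_nat hεs'
    (f := fun k z => cmp G m (k + 1) z - cmp G m k z) (s := U) hstep
  let H : ℂ → ℂ := fun z => z + ∑' k, (cmp G m (k + 1) z - cmp G m k z)
  have hunif2 : TendstoUniformlyOn (fun k z => cmp G m k z) H Filter.atTop U := by
    rw [Metric.tendstoUniformlyOn_iff] at hunif ⊢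
    intro δ hδ
    filter_upwards [hunif δ hδ] with N hN z hz
    have h1 := hN z hz
    have h2 : ∑ n ∈ Finset.range N, (cmp G m (n + 1) z - cmp G m n z) = cmp G m N z - z := by
      rw [Finset.sum_range_sub (fun n => cmp G m n z)]
      rfl
    rw [h2] at h1
    have h3 : dist (H z) (cmp G m N z) =
        dist (∑' k, (cmp G m (k + 1) z - cmp G m k z)) (cmp G m N z - z) := by
      rw [dist_eq_norm, dist_eq_norm]
      congr 1
      simp only [H]
      ring
    rw [h3]
    exact h1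
  have hlu : TendstoLocallyUniformlyOn (fun k z => cmp G m k z) H Filter.atTop U :=
    hunif2.tendstoLocallyUniformlyOn
  have hFd : ∀ᶠ k in Filter.atTop, DifferentiableOn ℂ (fun z => cmp G m k z) U := by
    refine Filter.Eventually.of_forall fun k z hz => ?_
    have hz' : |z.im| < 1 / 4 := hz
    exact (hA k z (by linarith)).2.differentiableWithinAt
  have hlim : ∀ z : ℂ, |z.im| < 1 / 4 →
      Filter.Tendsto (fun k => cmp G m k z) Filter.atTop (nhds (H z)) := fun z hz =>
    hunif2.tendsto_at hz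
  refine ⟨H, hlu.differentiableOn hFd hUo, hlim, ?_, ?_, ?_⟩
  · intro z hz
    refine le_of_tendsto ((hlim z hz).sub_const z).norm ?_
    exact Filter.Eventually.of_forall fun k => (hA k z (by linarith)).1
  · intro z hz
    exact (hlu.deriv hFd hUo).tendsto_at hz
  · intro k z hz
    exact hD k z (by linarith)

end Pool.Agent.RotDist
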