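import Mathlib
import Pool.Agent.RotDist.Defs

set_option autoImplicit false

namespace Pool.Agent.RotDist

theorem ext_deriv (g : Equiv.Perm ℝ) (ε : ℝ) (h : Ext g ε) (x : ℝ) :
    AnalyticAt ℝ g x ∧ |deriv g x - 1| ≤ 2 * ε := by
  obtain ⟨G, hG, hGr, hGe⟩ := h
  have hopen : IsOpen {z : ℂ | |z.im| < 1} :=
    isOpen_lt (Complex.continuous_im.abs) continuous_const
  have hx : (x : ℂ) ∈ {z : ℂ | |z.im| < 1} := by simp
  have hA : AnalyticAt ℂ G (x : ℂ) := hG.analyticAt (hopen.mem_nhds hx)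
  have hgG : (⇑g : ℝ → ℝ) = fun y : ℝ => (G (y : ℂ)).re := by
    funext y
    rw [hGr y, Complex.ofReal_re]
  have hD : HasDerivAt G (deriv G x) (x : ℂ) := hA.differentiableAt.hasDerivAt
  have hDg : HasDerivAt (⇑g) (deriv G x).re x := by
    rw [hgG]
    exact hD.real_of_complex
  refine ⟨?_, ?_⟩
  · rw [hgG]
    have h1 : AnalyticAt ℝ (fun y : ℝ => (y : ℂ)) x := Complex.ofRealCLM.analyticAt x
    have h2 : AnalyticAt ℝ G (x : ℂ) := hA.restrictScalars
    have h3 : AnalyticAt ℝ (fun y : ℝ => G (y : ℂ)) x := h2.comp h1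
    exact (Complex.reCLM.analyticAt _).comp h3
  · rw [hDg.deriv]
    have hball : Metric.closedBall (x : ℂ) (1 / 2) ⊆ {z : ℂ | |z.im| < 1} := by
      intro z hz
      rw [Metric.mem_closedBall, dist_eq_norm] at hz
      have h1 := Complex.abs_im_le_norm (z - x)
      have h2 : (z - (x : ℂ)).im = z.im := by simp
      rw [h2] at h1
      show |z.im| < 1
      linarith
    have hdc : DiffContOnCl ℂ (fun z => G z - z) (Metric.ball (x : ℂ) (1 / 2)) := by
      apply DifferentiableOn.diffContOnCl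
      refine (hG.mono ?_).sub differentiableOn_id
      exact (Metric.closure_ball_subset_closedBall).trans hball
    have hb := Complex.norm_deriv_le_of_forall_mem_sphere_norm_le (by norm_num : (0:ℝ) < 1 / 2) hdc
      (C := ε) (fun z hz => hGe z (hball (Metric.sphere_subset_closedBall hz)))
    have hd : deriv (fun z => G z - z) (x : ℂ) = deriv G x - 1 := by
      exact (hD.sub (hasDerivAt_id _)).deriv
    rw [hd] at hb
    have h3 : (deriv G x).re - 1 = (deriv G (x : ℂ) - 1).re := by simp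
    rw [h3]
    refine (Complex.abs_re_le_norm _).trans (hb.trans ?_)
    rw [div_eq_mul_inv]
    norm_num
    linarith

/-- an analytic bijection of the line with positive derivative has an analytic inverse with
positive derivative -/
theorem analytic_inv (g : Equiv.Perm ℝ) (h1 : ∀ x, AnalyticAt ℝ g x) (h2 : ∀ x, 0 < deriv g x) :
    (∀ x, AnalyticAt ℝ (⇑g⁻¹) x) ∧ ∀ x, 0 < deriv (⇑g⁻¹) x := by
  have hm : StrictMono (⇑g) := strictMono_of_deriv_pos h2
  let o : ℝ ≃o ℝ := StrictMono.orderIsoOfSurjective (⇑g) hm g.surjective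
  let h := o.toHomeomorph
  have hh : ∀ x, h x = g x := fun x => rfl
  have hs : ∀ y, h.symm y = g⁻¹ y := by
    intro y
    have h3 : h (h.symm y) = y := h.apply_symm_apply y
    rw [hh] at h3
    exact (Equiv.Perm.eq_inv_iff_eq).2 h3
  have hs' : (⇑h.symm : ℝ → ℝ) = ⇑g⁻¹ := funext hs
  have hc : Continuous (⇑g⁻¹ : ℝ → ℝ) := by rw [← hs']; exact h.symm.continuous
  refine ⟨fun y => ?_, fun y => ?_⟩
  · have hd : HasDerivAt (⇑g) (deriv g (g⁻¹ y)) (g⁻¹ y) :=
      (h1 _).differentiableAt.hasDerivAt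
    have hf := hd.hasFDerivAt_equiv (h2 _).ne'
    have h4 := OpenPartialHomeomorph.analyticAt_symm h.toOpenPartialHomeomorph (a := y)
      (i := ContinuousLinearEquiv.unitsEquivAut ℝ (Units.mk0 (deriv g (g⁻¹ y)) (h2 _).ne'))
      (by simp) (by
        show AnalyticAt ℝ (⇑g) (h.symm y)
        exact h1 _) (by
        show fderiv ℝ (⇑g) (h.symm y) = _
        rw [hs y]
        exact hf.fderiv)
    have h5 : (⇑(h.toOpenPartialHomeomorph).symm : ℝ → ℝ) = ⇑g⁻¹ := hs'
    rw [h5] at h4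
    exact h4
  · have hd : HasDerivAt (⇑g) (deriv g (g⁻¹ y)) (g⁻¹ y) :=
      (h1 _).differentiableAt.hasDerivAt
    have h3 : HasDerivAt (⇑g⁻¹) (deriv g (g⁻¹ y))⁻¹ y :=
      HasDerivAt.of_local_left_inverse hc.continuousAt hd (h2 _).ne'
        (Filter.Eventually.of_forall fun z => by simp)
    rw [h3.deriv]
    exact inv_pos.2 (h2 _)

end Pool.Agent.RotDist
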