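import Mathlib
import Pool.Agent.RotDist.Cmp
import Pool.Agent.RotDist.Deriv
import Pool.Agent.RotDist.Bst

set_option autoImplicit false

namespace Pool.Agent.RotDist

/-- finite products of the permutations -/
def j12189_P (F : ℕ → Equiv.Perm ℝ) (m : ℕ) : ℕ → Equiv.Perm ℝ
  | 0 => 1
  | k + 1 => j12189_P F m k * F (m + k)

theorem j12189_P_succ' (F : ℕ → Equiv.Perm ℝ) (m k : ℕ) :
    j12189_P F m (k + 1) = F m * j12189_P F (m + 1) k := by
  induction k with
  | zero => simp [j12189_P]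
  | succ k ih =>
    rw [j12189_P, ih, j12189_P, mul_assoc]
    congr 3
    omega

theorem j12189_cmp (F : ℕ → Equiv.Perm ℝ) (G : ℕ → ℂ → ℂ)
    (hG : ∀ m (x : ℝ), G m (x : ℂ) = ((F m x : ℝ) : ℂ)) (m k : ℕ) (x : ℝ) :
    cmp G m k (x : ℂ) = ((j12189_P F m k x : ℝ) : ℂ) := by
  induction k generalizing x with
  | zero => simp [cmp, j12189_P]
  | succ k ih =>
    simp only [cmp, j12189_P, Equiv.Perm.mul_apply]
    rw [hG, ih]

theorem j12189_comm (F : ℕ → Equiv.Perm ℝ) (m : ℕ) (c : ℝ)
    (h : ∀ j, m ≤ j → F j * tr c = tr c * F j) (k : ℕ) :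
    j12189_P F m k * tr c = tr c * j12189_P F m k := by
  induction k with
  | zero => simp [j12189_P]
  | succ k ih =>
    rw [j12189_P, mul_assoc, h (m + k) (by omega), ← mul_assoc, ih, mul_assoc]

theorem j12189_low (F : ℕ → Equiv.Perm ℝ) (ε : ℕ → ℝ) (hε : ∀ m, 0 ≤ ε m)
    (hsum : ∀ m, ∑ i ∈ Finset.range m, ε i ≤ 1 / 4) (hF : ∀ m, Ext (F m) (ε m))
    (hmono : ∀ m, StrictMono (F m)) (m k : ℕ) :
    ∀ x y : ℝ, x ≤ y → (1 - 2 * ∑ i ∈ Finset.range k, ε (m + i)) * (y - x) ≤
      j12189_P F m k y - j12189_P F m k x := by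
  have hS : ∀ k, ∑ i ∈ Finset.range k, ε (m + i) ≤ 1 / 4 := by
    intro k
    have h1 := hsum (m + k)
    rw [Finset.sum_range_add] at h1
    have h2 : 0 ≤ ∑ i ∈ Finset.range m, ε i := Finset.sum_nonneg fun i _ => hε i
    linarith
  have hF1 : ∀ j, ∀ x y : ℝ, x ≤ y → (1 - 2 * ε j) * (y - x) ≤ F j y - F j x := by
    intro j x y hxy
    have hd : Differentiable ℝ (F j) := fun x => (ext_deriv (F j) (ε j) (hF j) x).1.differentiableAt
    apply mul_sub_le_image_sub_of_le_deriv hd _ hxy
    intro z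
    have := (abs_le.1 (ext_deriv (F j) (ε j) (hF j) z).2).1
    linarith
  induction k with
  | zero => intro x y _; simp [j12189_P]
  | succ k ih =>
    intro x y hxy
    rw [Finset.sum_range_succ, j12189_P, Equiv.Perm.mul_apply, Equiv.Perm.mul_apply]
    have h1 := ih (F (m + k) x) (F (m + k) y) ((hmono _).monotone hxy)
    have h2 := hF1 (m + k) x y hxy
    have h3 := hS k
    have h4 : 0 ≤ ∑ i ∈ Finset.range k, ε (m + i) := Finset.sum_nonneg fun i _ => hε _
    have h5 := hε (m + k)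
    have h6 : 0 ≤ y - x := by linarith
    generalize (∑ i ∈ Finset.range k, ε (m + i)) = S at *
    have h7 : 0 ≤ 1 - 2 * S := by linarith
    have h8 := mul_le_mul_of_nonneg_left h2 h7
    have h9 : 0 ≤ S * ε (m + k) * (y - x) := by positivity
    nlinarith

theorem inf_prod (F : ℕ → Equiv.Perm ℝ) (ε : ℕ → ℝ) (hε : ∀ m, 0 ≤ ε m)
    (hsum : ∀ m, ∑ i ∈ Finset.range m, ε i ≤ 1 / 4) (hF : ∀ m, Ext (F m) (ε m))
    (hmono : ∀ m, StrictMono (F m)) :
    ∃ T : ℕ → Equiv.Perm ℝ, (∀ m, T m = F m * T (m + 1)) ∧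
      (∀ m, (∀ x, AnalyticAt ℝ (T m) x) ∧ (∀ x, 0 < deriv (T m) x) ∧
        (∀ x, AnalyticAt ℝ (⇑(T m)⁻¹) x) ∧ ∀ x, 0 < deriv (⇑(T m)⁻¹) x) ∧
      (∀ (m : ℕ) (c : ℝ), (∀ j, m ≤ j → F j * tr c = tr c * F j) → T m * tr c = tr c * T m) := by
  choose G hGd hGr hGb using hF
  have hF : ∀ m, Ext (F m) (ε m) := fun m => ⟨G m, hGd m, hGr m, hGb m⟩
  choose H hHd hHt hHb _ _ using cmp_limit G ε hε hsum hGd hGb
  have him : ∀ x : ℝ, |((x : ℂ)).im| < 1 / 4 := by intro x; simp
  have hlim : ∀ (m : ℕ) (x : ℝ), Filter.Tendsto (fun k => j12189_P F m k x) Filter.atTop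
      (nhds (H m (x : ℂ)).re) := by
    intro m x
    have h1 := hHt m (x : ℂ) (him x)
    simp_rw [j12189_cmp F G hGr] at h1
    have h2 := (Complex.continuous_re.tendsto _).comp h1
    simpa [Function.comp_def] using h2
  have hS : ∀ m k, ∑ i ∈ Finset.range k, ε (m + i) ≤ 1 / 4 := by
    intro m k
    have h1 := hsum (m + k)
    rw [Finset.sum_range_add] at h1
    have h2 : 0 ≤ ∑ i ∈ Finset.range m, ε i := Finset.sum_nonneg fun i _ => hε i
    linarith
  have hlow : ∀ (m : ℕ) (x y : ℝ), x ≤ y →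
      1 / 2 * (y - x) ≤ (H m (y : ℂ)).re - (H m (x : ℂ)).re := by
    intro m x y hxy
    apply ge_of_tendsto' ((hlim m y).sub (hlim m x))
    intro k
    have h1 := j12189_low F ε hε hsum hF hmono m k x y hxy
    have h2 := hS m k
    have h3 : 0 ≤ y - x := by linarith
    nlinarith
  have han : ∀ (m : ℕ) (x : ℝ), AnalyticAt ℝ (fun x : ℝ => (H m (x : ℂ)).re) x := by
    intro m x
    have hopen : IsOpen {z : ℂ | |z.im| < 1 / 4} :=
      isOpen_lt (continuous_abs.comp Complex.continuous_im) continuous_const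
    exact ((hHd m).analyticAt (hopen.mem_nhds (him x))).re_ofReal
  have hcont : ∀ m, Continuous (fun x : ℝ => (H m (x : ℂ)).re) := fun m =>
    continuous_iff_continuousAt.2 fun x => (han m x).continuousAt
  have hstr : ∀ m, StrictMono (fun x : ℝ => (H m (x : ℂ)).re) := by
    intro m x y hxy
    have := hlow m x y hxy.le
    have h2 : 0 < y - x := by linarith
    show (H m (x : ℂ)).re < (H m (y : ℂ)).re
    linarith
  have hclose : ∀ (m : ℕ) (x : ℝ), |(H m (x : ℂ)).re - x| ≤ 1 / 4 := by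
    intro m x
    have h1 := hHb m (x : ℂ) (him x)
    have h2 := Complex.abs_re_le_norm (H m (x : ℂ) - x)
    rw [Complex.sub_re, Complex.ofReal_re] at h2
    linarith
  have hsurj : ∀ m, Function.Surjective (fun x : ℝ => (H m (x : ℂ)).re) := by
    intro m
    apply (hcont m).surjective
    · apply Filter.tendsto_atTop_mono (fun x => ?_)
        (Filter.tendsto_atTop_add_const_right Filter.atTop (-(1 / 4) : ℝ) Filter.tendsto_id)
      have := (abs_le.1 (hclose m x)).1
      simp only [id]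
      linarith
    · apply Filter.tendsto_atBot_mono (fun x => ?_)
        (Filter.tendsto_atBot_add_const_right Filter.atBot (1 / 4 : ℝ) Filter.tendsto_id)
      have := (abs_le.1 (hclose m x)).2
      simp only [id]
      linarith
  let T : ℕ → Equiv.Perm ℝ := fun m => Equiv.ofBijective _ ⟨(hstr m).injective, hsurj m⟩
  have hT : ∀ m x, T m x = (H m (x : ℂ)).re := fun m x => rfl
  have hTfun : ∀ m, (⇑(T m) : ℝ → ℝ) = fun x : ℝ => (H m (x : ℂ)).re := fun m => rfl
  have hTan : ∀ m x, AnalyticAt ℝ (T m) x := fun m x => by rw [hTfun]; exact han m x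
  have hTder : ∀ m x, 0 < deriv (T m) x := by
    intro m x
    have hd := (hTan m x).differentiableAt.hasDerivAt
    have h1 := hd.tendsto_slope
    have h2 : 1 / 2 ≤ deriv (T m) x := by
      apply ge_of_tendsto h1
      filter_upwards [self_mem_nhdsWithin] with y hy
      rw [slope_def_field]
      rcases lt_or_gt_of_ne (show y ≠ x from hy) with h | h
      · have h3 := hlow m y x h.le
        rw [← hT, ← hT] at h3
        have h4 : y - x < 0 := by linarith
        rw [le_div_iff_of_neg h4]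
        linarith
      · have h3 := hlow m x y h.le
        rw [← hT, ← hT] at h3
        have h4 : 0 < y - x := by linarith
        rw [le_div_iff₀ h4]
        linarith
    linarith
  refine ⟨T, ?_, ?_, ?_⟩
  · intro m
    ext x
    rw [Equiv.Perm.mul_apply, hT m]
    have h1 := (hlim m x).comp (Filter.tendsto_add_atTop_nat 1)
    have hc : ContinuousAt (F m) (T (m + 1) x) := (ext_deriv (F m) (ε m) (hF m) _).1.continuousAt
    have h2 : Filter.Tendsto (fun k => F m (j12189_P F (m + 1) k x)) Filter.atTop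
        (nhds (F m (T (m + 1) x))) := hc.tendsto.comp (hlim (m + 1) x)
    apply tendsto_nhds_unique h1
    refine h2.congr fun k => ?_
    show _ = j12189_P F m (k + 1) x
    rw [j12189_P_succ', Equiv.Perm.mul_apply]
  · intro m
    have h := analytic_inv (T m) (hTan m) (hTder m)
    exact ⟨hTan m, hTder m, h.1, h.2⟩
  · intro m c hc
    ext x
    rw [Equiv.Perm.mul_apply, Equiv.Perm.mul_apply, tr_apply, tr_apply, hT, hT]
    apply tendsto_nhds_unique (hlim m (x + c))
    refine ((hlim m x).add_const c).congr fun k => ?_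
    have h1 := j12189_comm F m c hc k
    have h2 := congrArg (fun g : Equiv.Perm ℝ => g x) h1
    simp only [Equiv.Perm.mul_apply, tr_apply] at h2
    exact h2.symm

end Pool.Agent.RotDist
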