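import Mathlib
import Pool.Agent.RotDist.Base

set_option autoImplicit false

namespace Pool.Agent.RotDist

theorem cos_bound_11959 (x : ℝ) (hx : 0 ≤ x) : 2 * Real.cos (Real.pi / 3 - x) - 1 ≤ 2 * x := by
  rw [Real.cos_sub, Real.cos_pi_div_three]
  have h1 := Real.cos_le_one x
  have h2 := Real.sin_le hx
  have h3 := Real.sin_le_one (Real.pi / 3)
  have h4 : 0 ≤ Real.sin (Real.pi / 3) := by
    apply Real.sin_nonneg_of_nonneg_of_le_pi
    · positivity
    · have := Real.pi_pos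
      linarith
  have h5 : Real.sin (Real.pi / 3) * Real.sin x ≤ x := by
    calc Real.sin (Real.pi / 3) * Real.sin x ≤ Real.sin (Real.pi / 3) * x :=
          mul_le_mul_of_nonneg_left h2 h4
      _ ≤ 1 * x := mul_le_mul_of_nonneg_right h3 hx
      _ = x := one_mul x
  linarith

theorem gadget (q : ℕ) (hq : 1 ≤ q) (ε : ℝ) (hε : 0 < ε) :
    ∃ N0 : ℕ, 2 ≤ N0 ∧ ∀ N : ℕ, N0 ≤ N → ∃ η0 : ℝ, 0 < η0 ∧ ∀ θ : ℝ, 0 < θ → θ < η0 →
      ∃ (y : Fin 4 → Equiv.Perm ℝ) (c : Fin 4 → ℝ),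
        (∀ i, Ext (y i) ε ∧ StrictMono (y i) ∧ |c i| ≤ 1 / (q : ℝ) ∧
          y i * tr (1 / (q : ℝ)) = tr (1 / (q : ℝ)) * y i) ∧
        Gad (q : ℝ) (((N : ℝ) - 1) / (6 * N * q)) θ y c := by
  have hpi := Real.pi_pos
  have hq1 : (1 : ℝ) ≤ q := by exact_mod_cast hq
  have hq0 : (0 : ℝ) < q := by linarith
  set E : ℝ := Real.exp (2 * Real.pi * q) with hE
  have hEpos : 0 < E := Real.exp_pos _
  have hE1 : 1 ≤ E := Real.one_le_exp (by positivity)
  set δ : ℝ := min (1 / 2) ε / E with hδ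
  have hδpos : 0 < δ := div_pos (lt_min (by norm_num) hε) hEpos
  obtain ⟨N1, hN1⟩ := exists_nat_ge (2 * Real.pi / (3 * δ ^ 2))
  refine ⟨max 2 N1, le_max_left _ _, fun N hN => ?_⟩
  have hN2 : 2 ≤ N := (le_max_left _ _).trans hN
  have hNN1 : N1 ≤ N := (le_max_right _ _).trans hN
  have hNr : (2 : ℝ) ≤ N := by exact_mod_cast hN2
  have hN0 : (0 : ℝ) < N := by linarith
  set γ : ℝ := ((N : ℝ) - 1) / (6 * N) with hγ
  have hγ1 : 1 / 12 ≤ γ := by
    rw [hγ, div_le_div_iff₀ (by norm_num) (by positivity)]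
    linarith
  have hγ2 : γ < 1 / 6 := by
    rw [hγ, div_lt_div_iff₀ (by positivity) (by norm_num)]
    linarith
  have hγx : 2 * Real.pi * γ = Real.pi / 3 - Real.pi / (3 * N) := by
    rw [hγ]
    field_simp
    ring
  have hcos1 : 1 / 2 < Real.cos (2 * Real.pi * γ) := by
    rw [← Real.cos_pi_div_three]
    apply Real.cos_lt_cos_of_nonneg_of_le_pi
    · positivity
    · linarith
    · nlinarith
  set τ : ℝ := Real.sqrt (2 * Real.cos (2 * Real.pi * γ) - 1) with hτ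
  have hτpos : 0 < τ := Real.sqrt_pos.2 (by linarith)
  have hτ2 : τ ^ 2 = 2 * Real.cos (2 * Real.pi * γ) - 1 := Real.sq_sqrt (by linarith)
  have hτδ : τ ≤ δ := by
    have h1 : τ ^ 2 ≤ δ ^ 2 := by
      rw [hτ2, hγx]
      have h2 := cos_bound_11959 (Real.pi / (3 * N)) (by positivity)
      have h3 : (2 * Real.pi / (3 * δ ^ 2)) ≤ N := hN1.trans (by exact_mod_cast hNN1)
      rw [div_le_iff₀ (by positivity)] at h3
      have h4 : 2 * (Real.pi / (3 * N)) ≤ δ ^ 2 := by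
        rw [mul_div_assoc', div_le_iff₀ (by positivity)]
        linarith
      linarith
    exact (pow_le_pow_iff_left₀ hτpos.le hδpos.le two_ne_zero).1 h1
  have hτE : τ * E ≤ min (1 / 2) ε := by
    have h1 := mul_le_mul_of_nonneg_right hτδ hEpos.le
    rwa [hδ, div_mul_cancel₀ _ hEpos.ne'] at h1
  have hτE1 : τ * E ≤ 1 / 2 := hτE.trans (min_le_left _ _)
  have hτE2 : τ * E ≤ ε := hτE.trans (min_le_right _ _)
  have hτ1 : τ < 1 := by nlinarith
  refine ⟨min (1 / 12) (τ ^ 2 / Real.pi) / q, by positivity, fun θ hθ hθ2 => ?_⟩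
  set η : ℝ := q * θ with hη
  have hηpos : 0 < η := by positivity
  have hηle : η ≤ min (1 / 12) (τ ^ 2 / Real.pi) := by
    rw [lt_div_iff₀ hq0] at hθ2
    rw [hη]
    linarith
  have hη1 : η ≤ 1 / 12 := hηle.trans (min_le_left _ _)
  have hη2 : η ≤ τ ^ 2 / Real.pi := hηle.trans (min_le_right _ _)
  have hsin : Real.sin (Real.pi * η / 2) ≤
      τ ^ 2 * Real.sin (2 * Real.pi * γ + Real.pi * η / 2) := by
    have h1 : Real.sin (Real.pi * η / 2) ≤ Real.pi * η / 2 := Real.sin_le (by positivity)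
    have h2 : Real.pi * η / 2 ≤ τ ^ 2 / 2 := by
      rw [le_div_iff₀ hpi] at hη2
      linarith
    have h3 : 1 / 2 ≤ Real.sin (2 * Real.pi * γ + Real.pi * η / 2) := by
      rw [← Real.sin_pi_div_six]
      apply Real.sin_le_sin_of_le_of_le_pi_div_two
      · linarith
      · nlinarith
      · have h4 : Real.pi * η / 2 ≥ 0 := by positivity
        nlinarith
    have h5 : τ ^ 2 / 2 ≤ τ ^ 2 * Real.sin (2 * Real.pi * γ + Real.pi * η / 2) := by
      have := mul_le_mul_of_nonneg_left h3 (sq_nonneg τ)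
      linarith
    linarith
  obtain ⟨p, c', hp, hc', hG⟩ := base_gadget γ η τ hγ1 hγ2 hτpos hτ2 hηpos hη1 hsin
  have hp1 : ∀ i, ‖p i‖ < 1 := fun i => lt_of_le_of_lt (hp i) hτ1
  refine ⟨fun i => lv q (bp (p i)), fun i => c' i / q, fun i => ⟨?_, ?_, ?_, ?_⟩, ?_⟩
  · have h1 : ‖p i‖ * Real.exp (2 * Real.pi * q) ≤ τ * E :=
      mul_le_mul_of_nonneg_right (hp i) hEpos.le
    exact ext_lv_bp q hq1 (p i) ε (h1.trans hτE1) (h1.trans hτE2)
  · apply lv_mono q hq0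
    intro x y hxy
    rw [bp_apply _ (hp1 i), bp_apply _ (hp1 i)]
    exact bst_mono _ (hp1 i) hxy
  · show |c' i / q| ≤ 1 / q
    rw [abs_div, abs_of_pos hq0]
    exact div_le_div_of_nonneg_right (hc' i) hq0.le
  · have h1 := bp_int (p i) (hp1 i) 1
    rw [Int.cast_one] at h1
    show lv q (bp (p i)) * tr (1 / (q : ℝ)) = tr (1 / (q : ℝ)) * lv q (bp (p i))
    rw [← lv_tr q hq0.ne' 1, ← lv_mul, ← lv_mul, h1]
  · have h1 := gad_lv (q : ℝ) hq0 γ η (fun i => bp (p i)) c' hG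
    have e1 : γ / q = ((N : ℝ) - 1) / (6 * N * q) := by rw [hγ, div_div]
    have e2 : η / q = θ := by rw [hη, mul_div_cancel_left₀ _ hq0.ne']
    rw [e1, e2] at h1
    exact h1

end Pool.Agent.RotDist
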