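import Mathlib
import Pool.Agent.RotDist.Gadget
import Pool.Agent.RotDist.BallStep

set_option autoImplicit false

namespace Pool.Agent.RotDist

theorem small_frac_base (α : ℝ) (hα : Irrational α) (η : ℝ) (hη : 0 < η) :
    ∃ (n : ℕ) (k : ℤ), 0 < n ∧ 0 < (n : ℝ) * α - k ∧ (n : ℝ) * α - k < η := by
  set η' : ℝ := min η 1 with hη'
  have hη'0 : 0 < η' := lt_min hη one_pos
  obtain ⟨n0, hn0⟩ := exists_nat_one_div_lt hη'0
  obtain ⟨j, k, hk0, hk1, hjk⟩ := Real.exists_int_int_abs_mul_sub_le α (n := n0 + 1) (by omega)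
  have hlt : |(k : ℝ) * α - j| < η' := by
    refine hjk.trans_lt (lt_of_le_of_lt ?_ hn0)
    apply one_div_le_one_div_of_le (by positivity)
    push_cast; linarith
  have hne : ∀ (a b : ℤ), a ≠ 0 → (a : ℝ) * α - b ≠ 0 := by
    intro a b ha h
    apply hα
    refine ⟨(b : ℚ) / (a : ℚ), ?_⟩
    have ha' : (a : ℝ) ≠ 0 := by exact_mod_cast ha
    push_cast
    field_simp
    linarith
  lift k to ℕ using hk0.le
  have hk0' : 0 < k := by exact_mod_cast hk0
  have hkne := hne k j (by exact_mod_cast hk0'.ne')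
  simp only [Int.cast_natCast] at hkne hlt
  rcases lt_or_gt_of_ne hkne with hneg | hpos
  · set x : ℝ := j - (k : ℝ) * α with hx
    have hx0 : 0 < x := by linarith
    have hxη : x < η' := by
      rw [abs_of_neg hneg] at hlt; linarith
    have hx1 : x < 1 := hxη.trans_le (min_le_right _ _)
    set t : ℕ := ⌊1 / x⌋₊ with ht
    have h1 : (t : ℝ) ≤ 1 / x := Nat.floor_le (by positivity)
    have h2 : 1 / x < t + 1 := Nat.lt_floor_add_one _
    have h1' : (t : ℝ) * x ≤ 1 := by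
      rwa [le_div_iff₀ hx0] at h1
    have h2' : 1 < (t + 1 : ℝ) * x := by
      rwa [div_lt_iff₀ hx0] at h2
    have ht1 : 1 ≤ t := by
      rw [ht, Nat.one_le_floor_iff]
      rw [le_div_iff₀ hx0]; linarith
    refine ⟨k * t, j * t - 1, Nat.mul_pos hk0' ht1, ?_, ?_⟩
    · have h3 := hne ((k * t : ℕ) : ℤ) (j * t - 1) (by exact_mod_cast (Nat.mul_pos hk0' ht1).ne')
      push_cast at h3 ⊢
      have h4 : 0 ≤ (k : ℝ) * t * α - (j * t - 1) := by
        have : (k : ℝ) * t * α - (j * t - 1) = 1 - t * x := by rw [hx]; ring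
        rw [this]; linarith
      exact lt_of_le_of_ne h4 (Ne.symm h3)
    · push_cast
      have : (k : ℝ) * t * α - (j * t - 1) = 1 - t * x := by rw [hx]; ring
      rw [this]
      have : η' ≤ η := min_le_left _ _
      nlinarith
  · refine ⟨k, j, hk0', hpos, ?_⟩
    rw [abs_of_pos hpos] at hlt
    exact hlt.trans_le (min_le_left _ _)

/-- small positive fractional parts of multiples of an irrational number -/
theorem small_frac (α : ℝ) (hα : Irrational α) (η : ℝ) (hη : 0 < η) (M : ℕ) :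
    ∃ (n : ℕ) (k : ℤ), M ≤ n ∧ 0 < n ∧ 0 < (n : ℝ) * α - k ∧ (n : ℝ) * α - k < η := by
  have hM : (0 : ℝ) < (M : ℝ) + 1 := by positivity
  obtain ⟨n, k, hn, h1, h2⟩ := small_frac_base α hα (η / (M + 1)) (by positivity)
  refine ⟨(M + 1) * n, (M + 1) * k, ?_, by positivity, ?_, ?_⟩
  · nlinarith
  · push_cast
    have : ((M : ℝ) + 1) * n * α - (M + 1) * k = (M + 1) * ((n : ℝ) * α - k) := by ring
    rw [this]; positivity
  · push_cast
    have : ((M : ℝ) + 1) * n * α - (M + 1) * k = (M + 1) * ((n : ℝ) * α - k) := by ring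
    rw [this]
    rw [lt_div_iff₀ hM] at h2
    linarith

theorem ext_mono (g : Equiv.Perm ℝ) (ε ε' : ℝ) (h : ε ≤ ε') (hg : Ext g ε) : Ext g ε' := by
  obtain ⟨G, h1, h2, h3⟩ := hg
  exact ⟨G, h1, h2, fun z hz => (h3 z hz).trans h⟩

theorem tr_comm (a b : ℝ) : tr a * tr b = tr b * tr a := by
  rw [tr_add, tr_add, add_comm]

theorem comm_one (T : Equiv.Perm ℝ) (q : ℕ) (hq : 1 ≤ q)
    (h : T * tr (1 / (q : ℝ)) = tr (1 / (q : ℝ)) * T) : T * tr 1 = tr 1 * T := by
  have := comm_root T 1 q le_rfl hq (by simpa using h) 1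
  simpa using this

theorem comm_prod (a b c : Equiv.Perm ℝ) (h1 : a * c = c * a) (h2 : b * c = c * b) :
    (a * b) * c = c * (a * b) := by
  rw [mul_assoc, h2, ← mul_assoc, h1, mul_assoc]

theorem exists_step (S0 : Set (Equiv.Perm ℝ)) (hS0 : ∀ g ∈ S0, g * tr 1 = tr 1 * g)
    (α : ℝ) (hα : Irrational α) (m : ℕ) (st : St) (h : Valid S0 m st) :
    ∃ st' : St, Valid S0 (m + 1) st' ∧ Step S0 α m st st' := by
  obtain ⟨hq16, hN, ⟨η0, hη0, hG⟩, hinv, hQ⟩ := h
  obtain ⟨q, N, L, Q⟩ := st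
  dsimp only at hq16 hN hG hinv hQ
  have h2m : 1 ≤ 2 ^ m := Nat.one_le_two_pow
  have hq : 1 ≤ q := by omega
  have hq' : 1 ≤ 6 * N * q := by nlinarith
  obtain ⟨N1, hN1, hgad⟩ := gadget (6 * N * q) hq' (1 / 32 * (1 / 2) ^ (m + 1)) (by positivity)
  obtain ⟨N2, hN2⟩ := exists_nat_one_div_lt hη0
  set N' : ℕ := max N1 (N2 + 1) with hN'
  have hN'1 : N1 ≤ N' := le_max_left _ _
  have hN'2 : N2 + 1 ≤ N' := le_max_right _ _
  have hθ' : 1 / ((6 * N' * (6 * N * q) : ℕ) : ℝ) < η0 := by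
    refine lt_of_le_of_lt ?_ hN2
    apply one_div_le_one_div_of_le (by positivity)
    have : N2 + 1 ≤ 6 * N' * (6 * N * q) := by nlinarith
    exact_mod_cast this
  have hq''0 : 0 < 6 * N' * (6 * N * q) := by
    have : 0 < N' := by omega
    positivity
  have hθ'0 : 0 < 1 / ((6 * N' * (6 * N * q) : ℕ) : ℝ) := by
    have : (0 : ℝ) < ((6 * N' * (6 * N * q) : ℕ) : ℝ) := by exact_mod_cast hq''0
    positivity
  obtain ⟨n, k, hn1, hn0, hθ1, hθ2⟩ := small_frac α hα η0 hη0 ((m + 1) * L1 N q L)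
  obtain ⟨y0, c0, hyc0, g0⟩ := hG _ hθ1 hθ2
  obtain ⟨y1, c1, hyc1, g1⟩ := hG _ hθ'0 hθ'
  let y : Fin 2 → Fin 4 → Equiv.Perm ℝ := fun i => if i = 0 then y0 else y1
  let c : Fin 2 → Fin 4 → ℝ := fun i => if i = 0 then c0 else c1
  have hyc : ∀ i j, Ext (y i j) (1 / 32 * (1 / 2) ^ m) ∧ StrictMono (y i j) ∧
      |c i j| ≤ 1 / (q : ℝ) ∧ y i j * tr (1 / (q : ℝ)) = tr (1 / (q : ℝ)) * y i j := by
    intro i j
    by_cases hi : i = 0
    · simp only [y, c, hi, if_true]; exact hyc0 j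
    · simp only [y, c, hi, if_false]; exact hyc1 j
  have hstep := inv_step S0 hS0 q N (6 * N' * (6 * N * q)) L hq hN Q hQ hinv ((n : ℝ) * α - k) y c
    (fun i j => (hyc i j).2.2.2) g0 g1
  refine ⟨⟨6 * N * q, N', L1 N q L, fun i j => Q i j * (y i j * tr (c i j))⟩, ?_, ?_⟩
  · refine ⟨?_, hN1.trans hN'1, hgad N' hN'1, hstep.1, ?_⟩
    · show 16 * 2 ^ (m + 1) ≤ 6 * N * q
      rw [pow_succ]
      nlinarith
    · intro i j
      apply comm_prod _ _ _ (hQ i j)
      exact comm_prod _ _ _ (comm_one _ q hq (hyc i j).2.2.2) (tr_comm _ _)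
  · refine ⟨rfl, ⟨fun i j => y i j * tr (c i j), fun i j => rfl, ?_⟩, n, k, hn0, hn1, ?_⟩
    · intro i j
      refine ⟨?_, ?_, ?_⟩
      · apply ext_mono _ _ _ _ (ext_mul_tr _ _ _ (hyc i j).1)
        have h1 := (hyc i j).2.2.1
        have h2 : 1 / (q : ℝ) ≤ 1 / 16 * (1 / 2) ^ m := by
          have : ((16 * 2 ^ m : ℕ) : ℝ) ≤ (q : ℝ) := by exact_mod_cast hq16
          push_cast at this
          have h3 : 1 / (q : ℝ) ≤ 1 / (16 * 2 ^ m) := one_div_le_one_div_of_le (by positivity) this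
          refine h3.trans (le_of_eq ?_)
          rw [one_div_pow]; field_simp
        have h4 : (0 : ℝ) < (1 / 2) ^ m := by positivity
        nlinarith
      · intro a b hab
        simp only [Equiv.Perm.mul_apply, tr_apply]
        exact (hyc i j).2.1 (by linarith)
      · exact comm_prod _ _ _ (hyc i j).2.2.2 (tr_comm _ _)
    · intro f hf
      exact hstep.2 f hf

/-- the infinite sequence of states -/
theorem exists_seq (α : ℝ) (hα : Irrational α) :
    ∃ (N0 : ℕ) (st : ℕ → St), 2 ≤ N0 ∧ (st 0).q = 16 ∧ (st 0).N = N0 ∧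
      (st 0).Q = (fun _ _ => 1) ∧
      (∀ m, Valid {tr (1 / ((6 * N0 * 16 : ℕ) : ℝ))} m (st m)) ∧
      ∀ m, Step {tr (1 / ((6 * N0 * 16 : ℕ) : ℝ))} α m (st m) (st (m + 1)) := by
  obtain ⟨N0, hN0, hgad⟩ := gadget 16 (by norm_num) (1 / 32 * (1 / 2) ^ 0) (by positivity)
  set S0 : Set (Equiv.Perm ℝ) := {tr (1 / ((6 * N0 * 16 : ℕ) : ℝ))} with hS0def
  have hS0 : ∀ g ∈ S0, g * tr 1 = tr 1 * g := by
    intro g hg
    rw [hS0def, Set.mem_singleton_iff] at hg
    rw [hg]; exact tr_comm _ _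
  have h0 : Valid S0 0 ⟨16, N0, 1, fun _ _ => 1⟩ := by
    refine ⟨by norm_num, hN0, hgad N0 le_rfl, ?_, ?_⟩
    · intro f _
      refine ⟨?_, ?_⟩
      · apply ball_mem
        left
        exact Set.mem_singleton _
      · intro i j
        have := ball_int (S0 ∪ {g | ∃ i j, g = f i j}) 0
        rw [Int.cast_zero, tr_zero] at this
        exact ball_mono _ 0 1 (by norm_num) _ this
    · intro i j
      show (1 : Equiv.Perm ℝ) * tr 1 = tr 1 * 1
      rw [one_mul, mul_one]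
  let s : (m : ℕ) → {st : St // Valid S0 m st} := fun m =>
    Nat.rec ⟨_, h0⟩ (fun m ih => ⟨(exists_step S0 hS0 α hα m ih.1 ih.2).choose,
      (exists_step S0 hS0 α hα m ih.1 ih.2).choose_spec.1⟩) m
  refine ⟨N0, fun m => (s m).1, hN0, rfl, rfl, rfl, fun m => (s m).2, ?_⟩
  intro m
  exact (exists_step S0 hS0 α hα m (s m).1 (s m).2).choose_spec.2

end Pool.Agent.RotDist
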