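import Mathlib
import Pool.Agent.RotDist.Seq
import Pool.Agent.RotDist.InfProd

set_option autoImplicit false

namespace Pool.Agent.RotDist

theorem em_sum (m : ℕ) : ∑ i ∈ Finset.range m, (1 / 8 * (1 / 2) ^ i : ℝ) ≤ 1 / 4 := by
  have h : ∀ m : ℕ, ∑ i ∈ Finset.range m, (1 / 8 * (1 / 2) ^ i : ℝ) = 1 / 4 - 1 / 4 * (1 / 2) ^ m := by
    intro m
    induction m with
    | zero => simp
    | succ m ih =>
      rw [Finset.sum_range_succ, ih, pow_succ]
      ring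
  rw [h]
  have : (0 : ℝ) ≤ 1 / 4 * (1 / 2) ^ m := by positivity
  linarith

/-- the eight analytic maps -/
theorem exists_maps (α : ℝ) (hα : Irrational α) :
    ∃ (N0 : ℕ) (f : Fin 2 → Fin 4 → Equiv.Perm ℝ), 2 ≤ N0 ∧
      (∀ i j, (∀ x, AnalyticAt ℝ (f i j) x) ∧ (∀ x, 0 < deriv (f i j) x) ∧
        (∀ x, AnalyticAt ℝ (⇑(f i j)⁻¹) x) ∧ (∀ x, 0 < deriv (⇑(f i j)⁻¹) x) ∧
        f i j * tr 1 = tr 1 * f i j) ∧
      ∀ m : ℕ, ∃ (L n : ℕ) (k : ℤ), 0 < n ∧ (m + 1) * L ≤ n ∧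
        Ball ({tr (1 / ((6 * N0 * 16 : ℕ) : ℝ))} ∪ {g | ∃ i j, g = f i j}) L
          (tr ((n : ℝ) * α - k)) := by
  obtain ⟨N0, st, hN0, hq0, hNst, hQ0, hV, hS⟩ := exists_seq α hα
  choose F hFQ hF using fun m => (hS m).2.1
  have hq : ∀ m, (st (m + 1)).q = 6 * (st m).N * (st m).q := fun m => (hS m).1
  have hqpos : ∀ m, 1 ≤ (st m).q := by
    intro m
    have h1 := (hV m).1
    have h2 : 1 ≤ 2 ^ m := Nat.one_le_two_pow
    omega
  have hdiv : ∀ m d, ∃ r, 1 ≤ r ∧ (st (m + d)).q = r * (st m).q := by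
    intro m d
    induction d with
    | zero => exact ⟨1, le_rfl, by simp⟩
    | succ d ih =>
      obtain ⟨r, hr, hr2⟩ := ih
      refine ⟨6 * (st (m + d)).N * r, ?_, ?_⟩
      · have h1 := (hV (m + d)).2.1
        have : 0 < 6 * (st (m + d)).N * r := by positivity
        omega
      · rw [← Nat.add_assoc, hq, hr2]
        ring
  have hcomm : ∀ m j, m ≤ j → ∀ a b, F j a b * tr (1 / ((st m).q : ℝ)) =
      tr (1 / ((st m).q : ℝ)) * F j a b := by
    intro m j hmj a b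
    obtain ⟨d, rfl⟩ := Nat.exists_eq_add_of_le hmj
    obtain ⟨r, hr, hr2⟩ := hdiv m d
    have h1 := (hF (m + d) a b).2.2
    rw [hr2] at h1
    have h2 := comm_root (F (m + d) a b) (st m).q r (hqpos m) hr h1 1
    simpa using h2
  have hcomm1 : ∀ j a b, F j a b * tr 1 = tr 1 * F j a b := by
    intro j a b
    have h1 := (hF j a b).2.2
    have h1' : F j a b * tr (1 / ((1 * (st j).q : ℕ) : ℝ)) =
        tr (1 / ((1 * (st j).q : ℕ) : ℝ)) * F j a b := by rw [one_mul]; exact h1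
    have h2 := comm_root (F j a b) (st j).q 1 (hqpos j) le_rfl h1' ((st j).q : ℤ)
    have h3 : (((st j).q : ℤ) : ℝ) / ((st j).q : ℝ) = 1 := by
      have : ((st j).q : ℝ) ≠ 0 := by
        have := hqpos j
        positivity
      rw [Int.cast_natCast, div_self this]
    rw [h3] at h2
    exact h2
  choose T hT1 hT2 hT3 using fun (a : Fin 2) (b : Fin 4) =>
    inf_prod (fun m => F m a b) (fun m => 1 / 8 * (1 / 2) ^ m) (fun m => by positivity)
      em_sum (fun m => (hF m a b).1) (fun m => (hF m a b).2.1)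
  have hfac : ∀ m a b, T a b 0 = (st m).Q a b * T a b m := by
    intro m a b
    induction m with
    | zero => rw [hQ0]; simp
    | succ m ih =>
      rw [ih, hT1 a b m, hFQ m a b, mul_assoc]
  refine ⟨N0, fun a b => T a b 0, hN0, ?_, ?_⟩
  · intro a b
    obtain ⟨h1, h2, h3, h4⟩ := hT2 a b 0
    exact ⟨h1, h2, h3, h4, hT3 a b 0 1 (fun j _ => hcomm1 j a b)⟩
  · intro m
    obtain ⟨-, -, n, k, hn, hL, hball⟩ := hS m
    refine ⟨L1 (st m).N (st m).q (st m).L, n, k, hn, hL, ?_⟩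
    apply hball
    intro a b
    exact ⟨T a b (m + 1), hT3 a b (m + 1) _ (fun j hj => hcomm (m + 1) j hj a b),
      hfac (m + 1) a b⟩

theorem fin_foldr (l : List (Equiv.Perm ℝ)) :
    (l.map (fun p : Equiv.Perm ℝ => (⇑p : ℝ → ℝ))).foldr (fun f g => f ∘ g) id = ⇑l.prod := by
  induction l with
  | nil => simp
  | cons a l ih => rw [List.map_cons, List.foldr_cons, ih, List.prod_cons, Equiv.Perm.coe_mul]

theorem fin_tr (c : ℝ) : (∀ x, AnalyticAt ℝ (tr c) x) ∧ (∀ x, 0 < deriv (tr c) x) ∧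
    ∀ x, tr c (x + 1) = tr c x + 1 := by
  have h : (⇑(tr c) : ℝ → ℝ) = fun x => x + c := funext fun x => tr_apply c x
  refine ⟨fun x => ?_, fun x => ?_, fun x => ?_⟩
  · rw [h]
    exact analyticAt_id.add analyticAt_const
  · rw [h]
    simp
  · rw [tr_apply, tr_apply]; ring

/-- the final theorem -/
theorem final (α : ℝ) (hα : Irrational α) :
    ∃ S : Finset (ℝ → ℝ),
        (∀ F ∈ S, (∀ x : ℝ, AnalyticAt ℝ F x) ∧ (∀ x : ℝ, 0 < deriv F x) ∧
            (∀ x : ℝ, F (x + 1) = F x + 1) ∧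
            ∃ G ∈ S, ∃ m : ℤ, ∀ x : ℝ, G (F x) = x + (m : ℝ)) ∧
        ∀ ε : ℝ, 0 < ε →
          ∃ n : ℕ, 0 < n ∧
            ∃ w : List (ℝ → ℝ), (∀ F ∈ w, F ∈ S) ∧ (w.length : ℝ) ≤ ε * (n : ℝ) ∧
              ∃ k : ℤ, ∀ x : ℝ,
                (w.foldr (fun f g => f ∘ g) id) x = x + (n : ℝ) * α + (k : ℝ) := by
  classical
  obtain ⟨N0, f, hN0, hf, hball⟩ := exists_maps α hα
  set c : ℝ := 1 / ((6 * N0 * 16 : ℕ) : ℝ) with hc
  have hfin : {F : ℝ → ℝ | (∃ i j, F = ⇑(f i j)) ∨ (∃ i j, F = ⇑(f i j)⁻¹) ∨ F = ⇑(tr c) ∨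
      F = ⇑(tr (-c))}.Finite := by
    have h1 : (Set.range fun p : Fin 2 × Fin 4 => (⇑(f p.1 p.2) : ℝ → ℝ)).Finite :=
      Set.finite_range _
    have h2 : (Set.range fun p : Fin 2 × Fin 4 => (⇑(f p.1 p.2)⁻¹ : ℝ → ℝ)).Finite :=
      Set.finite_range _
    refine ((h1.union h2).union ((Set.finite_singleton (⇑(tr c) : ℝ → ℝ)).union
      (Set.finite_singleton (⇑(tr (-c)) : ℝ → ℝ)))).subset ?_
    rintro F (⟨i, j, rfl⟩ | ⟨i, j, rfl⟩ | rfl | rfl)
    · exact Or.inl (Or.inl ⟨(i, j), rfl⟩)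
    · exact Or.inl (Or.inr ⟨(i, j), rfl⟩)
    · exact Or.inr (Or.inl rfl)
    · exact Or.inr (Or.inr rfl)
  have hmem : ∀ F, F ∈ hfin.toFinset ↔ ((∃ i j, F = ⇑(f i j)) ∨ (∃ i j, F = ⇑(f i j)⁻¹) ∨
      F = ⇑(tr c) ∨ F = ⇑(tr (-c))) := by
    intro F
    rw [Set.Finite.mem_toFinset]
    rfl
  have hp1 : ∀ i j x, f i j (x + 1) = f i j x + 1 := by
    intro i j x
    have h := (hf i j).2.2.2.2
    have h2 := congrArg (fun p : Equiv.Perm ℝ => p x) h
    simp only [Equiv.Perm.mul_apply, tr_apply] at h2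
    exact h2
  refine ⟨hfin.toFinset, ?_, ?_⟩
  · intro F hF
    rw [hmem] at hF
    rcases hF with ⟨i, j, rfl⟩ | ⟨i, j, rfl⟩ | rfl | rfl
    · refine ⟨(hf i j).1, (hf i j).2.1, hp1 i j, ⇑(f i j)⁻¹, (hmem _).2 (Or.inr (Or.inl ⟨i, j, rfl⟩)),
        0, fun x => ?_⟩
      simp
    · refine ⟨(hf i j).2.2.1, (hf i j).2.2.2.1, fun x => ?_, ⇑(f i j), (hmem _).2 (Or.inl ⟨i, j, rfl⟩),
        0, fun x => ?_⟩
      · rw [Equiv.Perm.inv_eq_iff_eq, hp1]
        simp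
      · simp
    · obtain ⟨h1, h2, h3⟩ := fin_tr c
      refine ⟨h1, h2, h3, ⇑(tr (-c)), (hmem _).2 (Or.inr (Or.inr (Or.inr rfl))), 0, fun x => ?_⟩
      rw [tr_apply, tr_apply]
      simp
    · obtain ⟨h1, h2, h3⟩ := fin_tr (-c)
      refine ⟨h1, h2, h3, ⇑(tr c), (hmem _).2 (Or.inr (Or.inr (Or.inl rfl))), 0, fun x => ?_⟩
      rw [tr_apply, tr_apply]
      simp
  · intro ε hε
    obtain ⟨m, hm⟩ := exists_nat_one_div_lt hε
    obtain ⟨L, n, k, hn, hL, l, hl, hlS, k', hprod⟩ := hball m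
    refine ⟨n, hn, l.map (fun p : Equiv.Perm ℝ => (⇑p : ℝ → ℝ)), ?_, ?_, k' - k, ?_⟩
    · intro F hF
      rw [List.mem_map] at hF
      obtain ⟨p, hp, rfl⟩ := hF
      rw [hmem]
      rcases hlS p hp with h | h
      · rcases h with h | ⟨i, j, rfl⟩
        · rw [Set.mem_singleton_iff] at h
          right; right; left
          rw [h]
        · exact Or.inl ⟨i, j, rfl⟩
      · rcases h with h | ⟨i, j, h⟩
        · rw [Set.mem_singleton_iff] at h
          right; right; right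
          have : p = tr (-c) := by
            rw [← tr_inv, ← h, inv_inv]
          rw [this]
        · right; left
          exact ⟨i, j, by rw [← h, inv_inv]⟩
    · rw [List.length_map]
      have h1 : (l.length : ℝ) ≤ L := by exact_mod_cast hl
      have h2 : ((m : ℝ) + 1) * L ≤ n := by exact_mod_cast hL
      have h3 : (0 : ℝ) < (m : ℝ) + 1 := by positivity
      have h4 : (L : ℝ) ≤ n * (1 / ((m : ℝ) + 1)) := by
        rw [mul_one_div, le_div_iff₀ h3]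
        linarith
      have h5 : (n : ℝ) * (1 / ((m : ℝ) + 1)) ≤ n * ε :=
        mul_le_mul_of_nonneg_left hm.le (Nat.cast_nonneg n)
      linarith
    · intro x
      rw [fin_foldr, hprod, Equiv.Perm.mul_apply, tr_apply, tr_apply]
      push_cast
      ring

end Pool.Agent.RotDist
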